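import Pool.Agent.Lib.MP_06b9d2_nt.ME.SlashN

/-!
MP_06b9d2_nt: existence of the Hecke operator `T_n` as an endomorphism of the space of cusp forms.
-/

namespace Pool.Agent.Lib.MP_06b9d2_p2

open UpperHalfPlane Pool.Agent.Lib.MP_06b9d2_nt.ME
open Pool.Agent.Lib.MP_06b9d2_nt (IsHecke)
open scoped MatrixGroups ModularForm Manifold Topology

/-- right multiplication -/
private def rm {n : ℕ} (A : Mn n) (γ : SL(2, ℤ)) : Mn n := ⟨A.1 * γ.1, by
  rw [Matrix.det_mul, A.2, γ.2, mul_one]⟩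

private theorem gl_rm {n : ℕ} [NeZero n] (A : Mn n) (γ : SL(2, ℤ)) :
    gl n (rm A γ) = gl n A * Matrix.SpecialLinearGroup.mapGL ℝ γ := by
  apply Matrix.GeneralLinearGroup.ext
  intro i j
  simp [gl, rm, Matrix.GeneralLinearGroup.mkOfDetNeZero, Matrix.mul_apply]

private theorem rm_smul {n : ℕ} (δ : SL(2, ℤ)) (A : Mn n) (γ : SL(2, ℤ)) :
    rm (δ • A) γ = δ • rm A γ := by
  apply Subtype.ext
  show (δ • A).1 * γ.1 = (δ • rm A γ).1
  rw [FixedDetMatrices.smul_coe, FixedDetMatrices.smul_coe]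
  show δ.1 * A.1 * γ.1 = δ.1 * (A.1 * γ.1)
  rw [Matrix.mul_assoc]

private theorem rm_inj {n : ℕ} {A B : Mn n} {γ : SL(2, ℤ)} (h : rm A γ = rm B γ) : A = B := by
  have h1 : A.1 * γ.1 = B.1 * γ.1 := congrArg Subtype.val h
  have h2 : γ.1 * (γ⁻¹).1 = 1 := by
    rw [← Matrix.SpecialLinearGroup.coe_mul, mul_inv_cancel, Matrix.SpecialLinearGroup.coe_one]
  apply Subtype.ext
  have h3 := congrArg (fun M => M * (γ⁻¹).1) h1
  simp only [Matrix.mul_assoc, h2, Matrix.mul_one] at h3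
  exact h3

/-- the function `∑_j f ∣ dl_j` -/
private noncomputable def hs (k : ℤ) (n : ℕ) [NeZero n] (f : ℍ → ℂ) : ℍ → ℂ :=
  ∑ j : Rp n, f ∣[k] gl n (dl n j)

private theorem hs_inv {k : ℤ} {n : ℕ} [NeZero n] (f : CuspForm 𝒮ℒ k) (γ : SL(2, ℤ)) :
    hs k n f ∣[k] (Matrix.SpecialLinearGroup.mapGL ℝ γ) = hs k n f := by
  have hb := dl_bij n
  choose q hq using fun A : Mn n => hb.2 A
  have hq' : ∀ A : Mn n, (q A).1 • dl n (q A).2 = A := hq
  -- the permutation of the representatives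
  have hinj : Function.Injective (fun j : Rp n => (q (rm (dl n j) γ)).2) := by
    intro j j' hjj
    have e1 := hq' (rm (dl n j) γ)
    have e2 := hq' (rm (dl n j') γ)
    simp only at hjj
    rw [hjj] at e1
    have e0 : rm (dl n j) γ = ((q (rm (dl n j) γ)).1 * ((q (rm (dl n j') γ)).1)⁻¹) • rm (dl n j') γ := by
      generalize (q (rm (dl n j) γ)).1 = δ at e1 ⊢
      generalize (q (rm (dl n j') γ)).1 = δ' at e2 ⊢
      generalize dl n (q (rm (dl n j') γ)).2 = D at e1 e2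
      rw [← e1, ← e2, mul_smul, inv_smul_smul]
    rw [← rm_smul] at e0
    have e4 := rm_inj e0
    have e5 := hb.1 (a₁ := (1, j))
      (a₂ := ((q (rm (dl n j) γ)).1 * ((q (rm (dl n j') γ)).1)⁻¹, j')) (by
      simp only [one_smul]
      exact e4)
    exact congrArg Prod.snd e5
  have hbij : Function.Bijective (fun j : Rp n => (q (rm (dl n j) γ)).2) :=
    Finite.injective_iff_bijective.1 hinj
  unfold hs
  rw [SlashAction.sum_slash]
  rw [← hbij.sum_comp (fun j : Rp n => (f : ℍ → ℂ) ∣[k] gl n (dl n j))]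
  refine Finset.sum_congr rfl fun j _ => ?_
  rw [← SlashAction.slash_mul, ← gl_rm]
  have e1 := hq' (rm (dl n j) γ)
  generalize (q (rm (dl n j) γ)).1 = δ at e1
  generalize (q (rm (dl n j) γ)).2 = i at e1 ⊢
  rw [← e1, slash_smul]

private theorem hs_zero {k : ℤ} {n : ℕ} [NeZero n] (f : CuspForm 𝒮ℒ k) :
    IsZeroAtImInfty (hs k n f) := by
  have h : ∀ j : Rp n, IsZeroAtImInfty ((f : ℍ → ℂ) ∣[k] gl n (dl n j)) := by
    intro j
    refine IsZeroAtImInfty.slash k ?_ (CuspFormClass.zero_at_infty f)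
    show (((dl n j).1 1 0 : ℤ) : ℝ) = 0
    simp [dl]
  unfold hs
  unfold IsZeroAtImInfty Filter.ZeroAtFilter at h ⊢
  have h2 := tendsto_finsetSum (Finset.univ : Finset (Rp n)) fun j _ => h j
  rw [Finset.sum_const_zero] at h2
  refine h2.congr fun τ => ?_
  rw [Finset.sum_apply]

/-- the cusp form `T_n f` -/
private noncomputable def hf (k : ℤ) (n : ℕ) [NeZero n] (f : CuspForm 𝒮ℒ k) : CuspForm 𝒮ℒ k where
  toFun := hs k n f
  slash_action_eq' A hA := by
    obtain ⟨γ, rfl⟩ := hA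
    exact hs_inv f γ
  holo' := by
    show MDiff (hs k n f)
    unfold hs
    exact MDifferentiable.sum fun j _ => (CuspFormClass.holo f).slash k _
  zero_at_cusps' := by
    intro c hc
    rw [OnePoint.isZeroAt_iff_forall_SL2Z hc]
    intro γ _
    have h1 : hs k n f ∣[k] γ = hs k n f := by
      rw [ModularForm.SL_slash]
      exact hs_inv f γ
    show IsZeroAtImInfty (hs k n f ∣[k] γ)
    rw [h1]
    exact hs_zero f

private theorem sig_pos {g : GL (Fin 2) ℝ} (hg : 0 < g.det.val) (z : ℂ) : σ g z = z := by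
  simp only [σ, if_pos hg, ContinuousAlgEquiv.refl_apply]

private theorem gl_coe (n : ℕ) [NeZero n] (A : Mn n) (i j : Fin 2) :
    (gl n A) i j = ((A.1 i j : ℤ) : ℝ) := rfl

private theorem npos (n : ℕ) [NeZero n] : (0 : ℝ) < n := by
  exact_mod_cast Nat.pos_of_ne_zero (NeZero.ne n)

private theorem slash_dl (k : ℤ) {n : ℕ} [NeZero n] (f : ℍ → ℂ) (A : Mn n) (τ : ℍ) (w : ℂ) (d : ℂ)
    (h0 : A.1 1 0 = 0) (hd : ((A.1 1 1 : ℤ) : ℂ) = d)
    (hw : (((A.1 0 0 : ℤ) : ℂ) * τ + ((A.1 0 1 : ℤ) : ℂ)) / d = w) :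
    (f ∣[k] gl n A) τ = f (ofComplex w) * (n : ℂ) ^ (k - 1) * d ^ (-k) := by
  have hp : 0 < (gl n A).det.val := by
    rw [det_gl]
    exact npos n
  have hden : denom (gl n A) τ = d := by
    rw [denom, gl_coe, gl_coe, h0, ← hd]
    simp
  have hco : ((gl n A • τ : ℍ) : ℂ) = w := by
    rw [coe_smul_of_det_pos hp, hden, num, gl_coe, gl_coe, ← hw]
    simp
  have hpt : ofComplex w = gl n A • τ := by
    rw [← hco, ofComplex_apply]
  rw [ModularForm.slash_apply, sig_pos hp, det_gl, hden, hpt]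
  congr 2
  rw [abs_of_pos (npos n)]
  norm_num

private theorem hs_apply (k : ℤ) (n : ℕ) [NeZero n] (f : ℍ → ℂ) (τ : ℍ) :
    hs k n f τ = ∑ a ∈ n.divisors, ∑ b ∈ Finset.range (n / a),
      ((n : ℂ) ^ (k - 1) * ((n / a : ℕ) : ℂ) ^ (-k)) *
        f (ofComplex (((a : ℂ) * (τ : ℂ) + (b : ℂ)) / ((n / a : ℕ) : ℂ))) := by
  unfold hs
  rw [Finset.sum_apply, Fintype.sum_sigma, ← Finset.sum_coe_sort n.divisors]
  refine Finset.sum_congr rfl fun a _ => ?_
  rw [← Fin.sum_univ_eq_sum_range (fun b => ((n : ℂ) ^ (k - 1) * ((n / (a : ℕ) : ℕ) : ℂ) ^ (-k)) *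
    f (ofComplex ((((a : ℕ) : ℂ) * (τ : ℂ) + (b : ℂ)) / ((n / (a : ℕ) : ℕ) : ℂ))))]
  refine Finset.sum_congr rfl fun b _ => ?_
  rw [slash_dl k f (dl n ⟨a, b⟩) τ ((((a : ℕ) : ℂ) * (τ : ℂ) + ((b : ℕ) : ℂ)) / ((n / (a : ℕ) : ℕ) : ℂ))
    ((n / (a : ℕ) : ℕ) : ℂ) (by simp [dl]) (by
      show (((n / (a : ℕ) : ℕ) : ℤ) : ℂ) = _
      rw [Int.cast_natCast]) (by simp [dl])]
  ring

/-- the Hecke operator `T_n` exists -/
theorem hecke_ex (k : ℤ) (n : ℕ) (hn : n ≠ 0) :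
    ∃ T : CuspForm 𝒮ℒ k →ₗ[ℂ] CuspForm 𝒮ℒ k, IsHecke k n T := by
  have : NeZero n := ⟨hn⟩
  refine ⟨{ toFun := hf k n, map_add' := ?_, map_smul' := ?_ }, ?_⟩
  · intro f g
    apply DFunLike.ext
    intro τ
    show hs k n ⇑(f + g) τ = hs k n f τ + hs k n g τ
    rw [hs_apply, hs_apply, hs_apply, ← Finset.sum_add_distrib]
    refine Finset.sum_congr rfl fun a _ => ?_
    rw [← Finset.sum_add_distrib]
    refine Finset.sum_congr rfl fun b _ => ?_
    rw [add_apply, mul_add]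
  · intro c f
    apply DFunLike.ext
    intro τ
    show hs k n ⇑(c • f) τ = c • hs k n f τ
    rw [hs_apply, hs_apply, smul_eq_mul, Finset.mul_sum]
    refine Finset.sum_congr rfl fun a _ => ?_
    rw [Finset.mul_sum]
    refine Finset.sum_congr rfl fun b _ => ?_
    rw [smul_apply, smul_eq_mul]
    ring
  · intro f τ
    exact hs_apply k n f τ

end Pool.Agent.Lib.MP_06b9d2_p2
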