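import Pool.Agent.Lib.MP_06b9d2_p2.Cheb

/-!
MP_06b9d2_nt: the polynomials `U_j` separate the points of the disc of radius `|9|` about `2 √M`.

`U_j (r (2 + w)) = r ^ j ∑_i C(j + 1 + i, 2 i + 1) w ^ i` (`M = r ^ 2`); the coefficient of `w` is
`C(j + 2, 3)` and `C(j + 1 + i, 2 i + 1)` is `C(j + 2, 3)` times `6 / (2 i + 1)!` times an integer.
-/

namespace Pool.Agent.Lib.MP_06b9d2_p2

open Pool.Agent.Lib.MP_06b9d2_ssp

private theorem qo_two (n t : ℕ) (hn : t + 2 < n) (w : ℂ) :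
    qo n (t + 2) w = (2 + w) * qo n (t + 1) w - qo n t w := by
  unfold qo
  obtain ⟨m, rfl⟩ : ∃ m, n = m + 1 := ⟨n - 1, by omega⟩
  have h0 : (t + 1 + 1 + m).choose (2 * m + 1) = 0 := Nat.choose_eq_zero_of_lt (by omega)
  have h1 : w * ∑ r ∈ Finset.range (m + 1), ((t + 1 + 1 + r).choose (2 * r + 1) : ℂ) * w ^ r =
      ∑ r ∈ Finset.range m, ((t + 1 + 1 + r).choose (2 * r + 1) : ℂ) * w ^ (r + 1) := by
    rw [Finset.sum_range_succ, h0, Nat.cast_zero, zero_mul, add_zero, Finset.mul_sum]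
    refine Finset.sum_congr rfl fun r _ => ?_
    ring
  have h2 : (2 + w) * (∑ r ∈ Finset.range (m + 1), ((t + 1 + 1 + r).choose (2 * r + 1) : ℂ) * w ^ r) =
      2 * (∑ r ∈ Finset.range (m + 1), ((t + 1 + 1 + r).choose (2 * r + 1) : ℂ) * w ^ r) +
      ∑ r ∈ Finset.range m, ((t + 1 + 1 + r).choose (2 * r + 1) : ℂ) * w ^ (r + 1) := by
    rw [← h1]
    ring
  rw [h2, Finset.sum_range_succ' (fun r => ((t + 2 + 1 + r).choose (2 * r + 1) : ℂ) * w ^ r),
    Finset.sum_range_succ' (fun r => ((t + 1 + 1 + r).choose (2 * r + 1) : ℂ) * w ^ r),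
    Finset.sum_range_succ' (fun r => ((t + 1 + r).choose (2 * r + 1) : ℂ) * w ^ r)]
  have e : ∀ r ∈ Finset.range m, ((t + 2 + 1 + (r + 1)).choose (2 * (r + 1) + 1) : ℂ) * w ^ (r + 1) =
      2 * (((t + 1 + 1 + (r + 1)).choose (2 * (r + 1) + 1) : ℂ) * w ^ (r + 1)) +
      ((t + 1 + 1 + r).choose (2 * r + 1) : ℂ) * w ^ (r + 1) -
      ((t + 1 + (r + 1)).choose (2 * (r + 1) + 1) : ℂ) * w ^ (r + 1) := by
    intro r _
    have c1 : (t + 2 + 1 + (r + 1)).choose (2 * (r + 1) + 1) =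
        (t + 1 + 1 + (r + 1)).choose (2 * (r + 1)) + (t + 1 + 1 + (r + 1)).choose (2 * (r + 1) + 1) := by
      have e1 : t + 2 + 1 + (r + 1) = (t + 1 + 1 + (r + 1)) + 1 := by ring
      rw [e1, Nat.choose_succ_succ]
    have c2 : (t + 1 + 1 + (r + 1)).choose (2 * (r + 1)) =
        (t + 1 + 1 + r).choose (2 * r + 1) + (t + 1 + 1 + r).choose (2 * (r + 1)) := by
      have e1 : t + 1 + 1 + (r + 1) = (t + 1 + 1 + r) + 1 := by ring
      have e2 : 2 * (r + 1) = (2 * r + 1) + 1 := by ring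
      rw [e1, e2, Nat.choose_succ_succ]
    have c3 : (t + 1 + 1 + (r + 1)).choose (2 * (r + 1) + 1) =
        (t + 1 + 1 + r).choose (2 * (r + 1)) + (t + 1 + (r + 1)).choose (2 * (r + 1) + 1) := by
      have e1 : t + 1 + 1 + (r + 1) = (t + 1 + 1 + r) + 1 := by ring
      have e3 : t + 1 + (r + 1) = t + 1 + 1 + r := by ring
      rw [e1, e3, Nat.choose_succ_succ]
    have c4 : ((t + 2 + 1 + (r + 1)).choose (2 * (r + 1) + 1) : ℂ) =
        2 * ((t + 1 + 1 + (r + 1)).choose (2 * (r + 1) + 1) : ℂ) +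
        ((t + 1 + 1 + r).choose (2 * r + 1) : ℂ) -
        ((t + 1 + (r + 1)).choose (2 * (r + 1) + 1) : ℂ) := by
      rw [c1, c2]
      have c5 : ((t + 1 + 1 + (r + 1)).choose (2 * (r + 1) + 1) : ℂ) =
        ((t + 1 + 1 + r).choose (2 * (r + 1)) : ℂ) + ((t + 1 + (r + 1)).choose (2 * (r + 1) + 1) : ℂ) := by
        exact_mod_cast c3
      push_cast
      linear_combination -c5
    rw [c4]
    ring
  rw [Finset.sum_congr rfl e, Finset.sum_sub_distrib, Finset.sum_add_distrib, ← Finset.mul_sum]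
  simp
  ring

/-- `U_j (r (2 + w)) = r ^ j S_j(w)` -/
theorem U_form1 (n : ℕ) (r w : ℂ) (j : ℕ) :
    j < n → Uc (r ^ 2) (r * (2 + w)) j = r ^ j * qo n j w := by
  induction j using Nat.twoStepInduction with
  | zero =>
    intro hn
    have hq : qo n 0 w = 1 := by
      unfold qo
      rw [Finset.sum_eq_single 0]
      · simp
      · intro i _ hi
        rw [Nat.choose_eq_zero_of_lt (by omega), Nat.cast_zero, zero_mul]
      · intro h
        exact absurd (Finset.mem_range.2 hn) h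
    rw [hq]
    simp [Uc]
  | one =>
    intro hn
    have hq : qo n 1 w = 2 + w := by
      obtain ⟨m, rfl⟩ : ∃ m, n = m + 2 := ⟨n - 2, by omega⟩
      unfold qo
      rw [Finset.sum_range_succ', Finset.sum_range_succ', Finset.sum_eq_zero]
      · simp
        ring
      · intro i _
        rw [Nat.choose_eq_zero_of_lt (by omega), Nat.cast_zero, zero_mul]
    rw [hq]
    simp [Uc]
  | more j h0 h1 =>
    intro hn
    show r * (2 + w) * Uc (r ^ 2) (r * (2 + w)) (j + 1) - r ^ 2 * Uc (r ^ 2) (r * (2 + w)) j = _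
    rw [h0 (by omega), h1 (by omega), qo_two n j hn]
    ring

variable {O : ValuationSubring ℂ}

theorem dvd3 (j r : ℕ) :
    j * (j + 1) * (j + 2) ∣ (2 * r + 5).factorial * (j + 1 + (r + 1 + 1)).choose (2 * (r + 1 + 1) + 1) := by
  have e0 : 2 * (r + 1 + 1) + 1 = 2 * r + 5 := by ring
  rw [e0, ← Nat.descFactorial_eq_factorial_mul_choose, Nat.descFactorial_eq_prod_range]
  have hs : ({r + 3, r + 2, r + 1} : Finset ℕ) ⊆ Finset.range (2 * r + 5) := by
    intro i hi
    simp only [Finset.mem_insert, Finset.mem_singleton] at hi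
    rw [Finset.mem_range]
    omega
  have h := Finset.prod_dvd_prod_of_subset _ _ (fun i => j + 1 + (r + 1 + 1) - i) hs
  rw [Finset.prod_insert (by simp), Finset.prod_insert (by simp), Finset.prod_singleton] at h
  have e1 : j + 1 + (r + 1 + 1) - (r + 3) = j := by omega
  have e2 : j + 1 + (r + 1 + 1) - (r + 2) = j + 1 := by omega
  have e3 : j + 1 + (r + 1 + 1) - (r + 1) = j + 2 := by omega
  rw [e1, e2, e3, ← mul_assoc] at h
  exact h

theorem six (j : ℕ) : j * (j + 1) * (j + 2) = 6 * (j + 2).choose 3 := by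
  have h := Nat.descFactorial_eq_factorial_mul_choose (j + 2) 3
  rw [show (3 : ℕ).factorial = 6 by rfl] at h
  rw [← h]
  simp only [Nat.descFactorial_succ, Nat.descFactorial_zero]
  have e1 : j + 2 - 2 = j := by omega
  have e2 : j + 2 - 1 = j + 1 := by omega
  rw [e1, e2, Nat.sub_zero]
  ring

private theorem q_inj (h3 : O.valuation 3 < 1) (n j : ℕ) (hj : 1 ≤ j)
    {z w : ℂ} (hz : O.valuation z ≤ O.valuation 3 ^ 2) (hw : O.valuation w ≤ O.valuation 3 ^ 2)
    (h : qo (n + 2) j z = qo (n + 2) j w) : z = w := by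
  by_contra hne
  have hab : z - w ≠ 0 := sub_ne_zero.2 hne
  obtain ⟨S, hS⟩ : ∃ S : ℕ → ℂ, S = fun r => ∑ i ∈ Finset.range (r + 1),
    z ^ i * w ^ (r + 1 - 1 - i) := ⟨_, rfl⟩
  have hSm : ∀ r, S r * (z - w) = z ^ (r + 1) - w ^ (r + 1) := by
    intro r
    rw [hS]
    exact (Commute.all z w).geom_sum₂_mul (r + 1)
  have hSv : ∀ r, O.valuation (S r) ≤ (O.valuation 3 ^ 2) ^ r := by
    intro r
    rw [hS]
    exact geo z w r _ hz hw
  have h1 : ∑ r ∈ Finset.range (n + 1), ((j + 1 + (r + 1)).choose (2 * (r + 1) + 1) : ℂ) * S r = 0 := by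
    have h2 : (∑ r ∈ Finset.range (n + 1), ((j + 1 + (r + 1)).choose (2 * (r + 1) + 1) : ℂ) * S r) *
        (z - w) = 0 := by
      rw [← sub_eq_zero] at h
      rw [← h]
      unfold qo
      rw [Finset.sum_range_succ' (fun r => ((j + 1 + r).choose (2 * r + 1) : ℂ) * z ^ r),
        Finset.sum_range_succ' (fun r => ((j + 1 + r).choose (2 * r + 1) : ℂ) * w ^ r), Finset.sum_mul]
      have e : ∀ r ∈ Finset.range (n + 1), ((j + 1 + (r + 1)).choose (2 * (r + 1) + 1) : ℂ) * S r * (z - w) =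
          ((j + 1 + (r + 1)).choose (2 * (r + 1) + 1) : ℂ) * z ^ (r + 1) -
          ((j + 1 + (r + 1)).choose (2 * (r + 1) + 1) : ℂ) * w ^ (r + 1) := by
        intro r _
        rw [mul_assoc, hSm]
        ring
      rw [Finset.sum_congr rfl e, Finset.sum_sub_distrib]
      simp
    exact (mul_eq_zero.1 h2).resolve_right hab
  rw [Finset.sum_range_succ'] at h1
  obtain ⟨W, hW⟩ : ∃ W : ℕ, W = (j + 2).choose 3 := ⟨_, rfl⟩
  have e0 : ((j + 1 + (0 + 1)).choose (2 * (0 + 1) + 1) : ℂ) * S 0 = (W : ℂ) := by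
    rw [hS, hW]
    simp
  rw [e0] at h1
  have v6 : O.valuation (6 : ℂ) = O.valuation 3 := by
    have h2 := val_int h3 2 (by norm_num)
    have e : (6 : ℂ) = ((2 : ℤ) : ℂ) * 3 := by norm_num
    rw [e, map_mul, h2, one_mul]
  have hv3 : O.valuation (3 : ℂ) ≠ 0 := (map_ne_zero _).mpr (by norm_num)
  have hlt : O.valuation (∑ r ∈ Finset.range n, ((j + 1 + (r + 1 + 1)).choose (2 * (r + 1 + 1) + 1) : ℂ) *
      S (r + 1)) ≤ O.valuation (W : ℂ) * O.valuation 3 := by
    refine Valuation.map_sum_le _ fun r _ => ?_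
    have k1 := v_coef h3 (2 * r + 5) (r + 2) (j * (j + 1) * (j + 2)) _ (by omega) (dvd3 j r)
    rw [six j, ← hW, Nat.cast_mul, map_mul (O.valuation) ((6 : ℕ) : ℂ)] at k1
    have e6 : ((6 : ℕ) : ℂ) = 6 := by norm_num
    rw [e6, v6] at k1
    have k2 : O.valuation ((j + 1 + (r + 1 + 1)).choose (2 * (r + 1 + 1) + 1) : ℂ) *
        O.valuation 3 ^ (r + 1) ≤ O.valuation (W : ℂ) := by
      have k3 : O.valuation 3 * (O.valuation ((j + 1 + (r + 1 + 1)).choose (2 * (r + 1 + 1) + 1) : ℂ) *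
          O.valuation 3 ^ (r + 1)) ≤ O.valuation 3 * O.valuation (W : ℂ) := by
        refine le_trans (le_of_eq ?_) k1
        rw [show r + 2 = (r + 1) + 1 by ring, pow_succ (O.valuation 3) (r + 1),
          mul_comm (O.valuation 3), mul_assoc]
      exact le_of_mul_le_mul_left k3 (zero_lt_iff.2 hv3)
    rw [map_mul]
    calc O.valuation ((j + 1 + (r + 1 + 1)).choose (2 * (r + 1 + 1) + 1) : ℂ) * O.valuation (S (r + 1))
        ≤ O.valuation ((j + 1 + (r + 1 + 1)).choose (2 * (r + 1 + 1) + 1) : ℂ) *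
          (O.valuation 3 ^ 2) ^ (r + 1) := mul_le_mul_right (hSv _) _
      _ = (O.valuation ((j + 1 + (r + 1 + 1)).choose (2 * (r + 1 + 1) + 1) : ℂ) *
          O.valuation 3 ^ (r + 1)) * (O.valuation 3 ^ r * O.valuation 3) := by
          rw [← pow_succ, mul_assoc, ← pow_add, ← pow_mul]
          congr 2
          ring
      _ ≤ O.valuation (W : ℂ) * (O.valuation 3 ^ r * O.valuation 3) :=
          mul_le_mul_left k2 _
      _ ≤ O.valuation (W : ℂ) * (1 * O.valuation 3) :=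
          mul_le_mul_right (mul_le_mul_left (pow_le_one' h3.le r) _) _
      _ = _ := by rw [one_mul]
  have hW0 : (W : ℂ) ≠ 0 := by
    rw [hW]
    exact_mod_cast (Nat.choose_pos (by omega : 3 ≤ j + 2)).ne'
  have hv : O.valuation (W : ℂ) ≠ 0 := (map_ne_zero _).mpr hW0
  have e5 : (W : ℂ) = -(∑ r ∈ Finset.range n,
      ((j + 1 + (r + 1 + 1)).choose (2 * (r + 1 + 1) + 1) : ℂ) * S (r + 1)) := by
    linear_combination h1
  have h5 : O.valuation (W : ℂ) ≤ O.valuation (W : ℂ) * O.valuation 3 := by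
    conv_lhs => rw [e5]
    rw [Valuation.map_neg]
    exact hlt
  have h6 : O.valuation (W : ℂ) * O.valuation 3 < O.valuation (W : ℂ) * 1 :=
    mul_lt_mul_of_pos_left h3 (zero_lt_iff.2 hv)
  rw [mul_one] at h6
  exact absurd h5 (not_le.2 h6)

/-- `U_j` separates the points of the disc of radius `|9|` about `2 r` (`M = r ^ 2` a unit) -/
theorem Uc_inj1 (h3 : O.valuation 3 < 1) {r : ℂ} (hr : O.valuation r = 1) (j : ℕ) (hj : 1 ≤ j)
    {a b : ℂ} (ha : O.valuation (a - 2 * r) ≤ O.valuation 3 ^ 2)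
    (hb : O.valuation (b - 2 * r) ≤ O.valuation 3 ^ 2)
    (h : Uc (r ^ 2) a j = Uc (r ^ 2) b j) : a = b := by
  have hr0 : r ≠ 0 := by
    intro h0
    rw [h0, map_zero] at hr
    exact zero_ne_one hr
  have key : ∀ x : ℂ, O.valuation (x - 2 * r) ≤ O.valuation 3 ^ 2 →
      ∃ w : ℂ, O.valuation w ≤ O.valuation 3 ^ 2 ∧ x = r * (2 + w) := by
    intro x hx
    refine ⟨(x - 2 * r) / r, ?_, ?_⟩
    · rw [map_div₀, hr, div_one]
      exact hx
    · field_simp
      ring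
  obtain ⟨z, hz, rfl⟩ := key a ha
  obtain ⟨w, hw, rfl⟩ := key b hb
  rw [U_form1 (j + 2) r z j (by omega), U_form1 (j + 2) r w j (by omega)] at h
  have h1 := mul_left_cancel₀ (pow_ne_zero _ hr0) h
  rw [q_inj h3 j j hj hz hw h1]

end Pool.Agent.Lib.MP_06b9d2_p2
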