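import Mathlib

/-!
Linear algebra: if `T` has `dim V` distinct eigenvalues and the polynomial `P` is injective on them
then the eigenspaces of `P(T)` have dimension at most one.
-/

namespace Pool.Agent.Lib.MP_06b9d2_p2

open Polynomial

variable {V : Type*} [AddCommGroup V] [Module ℂ V] [Module.Finite ℂ V]

theorem ker_of_inj {T : V →ₗ[ℂ] V}
    (hc : (LinearMap.charpoly T).roots.toFinset.card = Module.finrank ℂ V) (P : ℂ[X])
    (hP : ∀ a b : ℂ, Module.End.HasEigenvalue T a → Module.End.HasEigenvalue T b →
      P.eval a = P.eval b → a = b) (mu : ℂ) :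
    Module.finrank ℂ (LinearMap.ker (aeval T P - mu • LinearMap.id)) ≤ 1 := by
  classical
  obtain ⟨T', hT'⟩ : ∃ T' : V →ₗ[ℂ] V, T' = aeval T P := ⟨_, rfl⟩
  rw [← hT']
  have hne : LinearMap.charpoly T ≠ 0 := (LinearMap.charpoly_monic T).ne_zero
  have hne' : LinearMap.charpoly T' ≠ 0 := (LinearMap.charpoly_monic T').ne_zero
  have hev : ∀ a ∈ (LinearMap.charpoly T).roots.toFinset, Module.End.HasEigenvalue T a := by
    intro a ha
    rw [Multiset.mem_toFinset, mem_roots hne] at ha
    exact (Module.End.hasEigenvalue_iff_isRoot_charpoly T a).2 ha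
  have hinj : Set.InjOn (fun a => P.eval a) ((LinearMap.charpoly T).roots.toFinset : Set ℂ) := by
    intro a ha b hb hab
    exact hP a b (hev a ha) (hev b hb) hab
  have hsub : (LinearMap.charpoly T).roots.toFinset.image (fun a => P.eval a) ⊆
      (LinearMap.charpoly T').roots.toFinset := by
    intro m hm
    obtain ⟨a, ha, rfl⟩ := Finset.mem_image.1 hm
    obtain ⟨v, hv⟩ := (hev a ha).exists_hasEigenvector
    have h1 : T' v = P.eval a • v := by
      rw [hT']
      exact Module.End.aeval_apply_of_hasEigenvector hv
    rw [Multiset.mem_toFinset, mem_roots hne']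
    refine (Module.End.hasEigenvalue_iff_isRoot_charpoly T' _).1 ?_
    exact Module.End.hasEigenvalue_of_hasEigenvector ⟨Module.End.mem_eigenspace_iff.2 h1, hv.2⟩
  have h1 := Finset.card_le_card hsub
  rw [Finset.card_image_of_injOn hinj, hc] at h1
  have h2 : Multiset.card (LinearMap.charpoly T').roots = Module.finrank ℂ V := by
    rw [← LinearMap.charpoly_natDegree T']
    exact IsAlgClosed.card_roots_eq_natDegree
  have h3 : (LinearMap.charpoly T').roots.toFinset.card = Multiset.card (LinearMap.charpoly T').roots :=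
    le_antisymm (Multiset.toFinset_card_le _) (by rw [h2]; exact h1)
  have hnd : (LinearMap.charpoly T').roots.Nodup := Multiset.toFinset_card_eq_card_iff_nodup.1 h3
  have h4 : (LinearMap.charpoly T').rootMultiplicity mu ≤ 1 := by
    rw [← count_roots]
    exact Multiset.nodup_iff_count_le_one.1 hnd mu
  rw [← LinearMap.finrank_maxGenEigenspace_eq T' mu] at h4
  refine (Submodule.finrank_mono ?_).trans h4
  have h5 : LinearMap.ker (T' - mu • LinearMap.id) = Module.End.eigenspace T' mu := by
    rw [Module.End.eigenspace_def]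
    rfl
  rw [h5]
  exact Module.End.eigenspace_le_maxGenEigenspace

end Pool.Agent.Lib.MP_06b9d2_p2
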