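import Pool.Agent.Lib.MP_06b9d2_ssp.POa

/-!
Module P2-Cheb. The polynomials `U_j` with `U_0 = 1`, `U_1 = a`, `U_{j+2} = a U_{j+1} - M U_j` on the disc of the multiples of `3`.

With `D = -M` (a unit at `3`), `z = a ^ 2 / D`: `U_{2t} = D ^ t p_t(z)`, `U_{2t+1} = a D ^ t q_t(z)`, `p_t(z) = ∑_r C(t + r, 2 r) z ^ r`,
`q_t(z) = ∑_r C(t + 1 + r, 2 r + 1) z ^ r`. As `(2 r + 1)! C(t + 1 + r, 2 r + 1)` is divisible by `t + 1`, and `v_3((2 r + 1)!) ≤ r`, the divided
difference of `a q_t(z)` is `(t + 1) (1 + ε)`, and that of `p_t(z)` is `t (t + 1) / 2 (1 + ε)`.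
-/

namespace Pool.Agent.Lib.MP_06b9d2_p2

open Pool.Agent.Lib.MP_06b9d2_ssp

/-- `U_0 = 1`, `U_1 = a`, `U_{j+2} = a U_{j+1} - M U_j` -/
def Uc (M a : ℂ) : ℕ → ℂ
  | 0 => 1
  | 1 => a
  | (j + 2) => a * Uc M a (j + 1) - M * Uc M a j

/-- `∑_r C(t + r, 2 r) z ^ r` -/
def pe (n t : ℕ) (z : ℂ) : ℂ := ∑ r ∈ Finset.range n, ((t + r).choose (2 * r) : ℂ) * z ^ r

/-- `∑_r C(t + 1 + r, 2 r + 1) z ^ r` -/
def qo (n t : ℕ) (z : ℂ) : ℂ :=
  ∑ r ∈ Finset.range n, ((t + 1 + r).choose (2 * r + 1) : ℂ) * z ^ r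

private theorem qo_rec (n t : ℕ) (z : ℂ) : qo n (t + 1) z = pe n (t + 1) z + qo n t z := by
  unfold qo pe
  rw [← Finset.sum_add_distrib]
  refine Finset.sum_congr rfl fun r _ => ?_
  have h : (t + 1 + 1 + r).choose (2 * r + 1) =
      (t + 1 + r).choose (2 * r) + (t + 1 + r).choose (2 * r + 1) := by
    have e : t + 1 + 1 + r = (t + 1 + r) + 1 := by ring
    rw [e, Nat.choose_succ_succ]
  rw [h]
  push_cast
  ring

private theorem pe_rec (n t : ℕ) (hn : t + 1 < n) (z : ℂ) :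
    pe n (t + 1) z = z * qo n t z + pe n t z := by
  unfold qo pe
  obtain ⟨m, rfl⟩ : ∃ m, n = m + 1 := ⟨n - 1, by omega⟩
  rw [Finset.sum_range_succ' (fun r => ((t + 1 + r).choose (2 * r) : ℂ) * z ^ r),
    Finset.sum_range_succ' (fun r => ((t + r).choose (2 * r) : ℂ) * z ^ r),
    Finset.sum_range_succ (fun r => ((t + 1 + r).choose (2 * r + 1) : ℂ) * z ^ r)]
  have h0 : (t + 1 + m).choose (2 * m + 1) = 0 := Nat.choose_eq_zero_of_lt (by omega)
  rw [h0, Nat.cast_zero, zero_mul, mul_add, mul_zero z, add_zero (z * _), Finset.mul_sum,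
    ← add_assoc, ← Finset.sum_add_distrib]
  congr 1
  · refine Finset.sum_congr rfl fun r _ => ?_
    have h : (t + 1 + (r + 1)).choose (2 * (r + 1)) =
        (t + 1 + r).choose (2 * r + 1) + (t + (r + 1)).choose (2 * (r + 1)) := by
      have e1 : t + 1 + (r + 1) = (t + 1 + r) + 1 := by ring
      have e2 : 2 * (r + 1) = (2 * r + 1) + 1 := by ring
      have e3 : t + (r + 1) = t + 1 + r := by ring
      rw [e1, e2, e3, Nat.choose_succ_succ]
    rw [h]
    push_cast
    ring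
  · simp

theorem U_form (n : ℕ) (D a : ℂ) (hD : D ≠ 0) (t : ℕ) (ht : t < n) :
    Uc (-D) a (2 * t) = D ^ t * pe n t (a ^ 2 / D) ∧
      Uc (-D) a (2 * t + 1) = a * (D ^ t * qo n t (a ^ 2 / D)) := by
  induction t with
  | zero =>
    have hp : pe n 0 (a ^ 2 / D) = 1 := by
      unfold pe
      rw [Finset.sum_eq_single 0]
      · simp
      · intro r _ hr
        rw [Nat.choose_eq_zero_of_lt (by omega), Nat.cast_zero, zero_mul]
      · intro h
        exact absurd (Finset.mem_range.2 ht) h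
    have hq : qo n 0 (a ^ 2 / D) = 1 := by
      unfold qo
      rw [Finset.sum_eq_single 0]
      · simp
      · intro r _ hr
        rw [Nat.choose_eq_zero_of_lt (by omega), Nat.cast_zero, zero_mul]
      · intro h
        exact absurd (Finset.mem_range.2 ht) h
    rw [hp, hq]
    constructor
    · simp [Uc]
    · simp [Uc]
  | succ t ih =>
    obtain ⟨h1, h2⟩ := ih (by omega)
    have e1 : 2 * (t + 1) = 2 * t + 2 := by ring
    have e2 : 2 * (t + 1) + 1 = (2 * t + 1) + 2 := by ring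
    have a1 : Uc (-D) a (2 * (t + 1)) = D ^ (t + 1) * pe n (t + 1) (a ^ 2 / D) := by
      rw [e1]
      show a * Uc (-D) a (2 * t + 1) - -D * Uc (-D) a (2 * t) = _
      rw [h1, h2, pe_rec n t ht]
      field_simp
      ring
    refine ⟨a1, ?_⟩
    rw [e2]
    show a * Uc (-D) a (2 * t + 1 + 1) - -D * Uc (-D) a (2 * t + 1) = _
    have e3 : 2 * t + 1 + 1 = 2 * (t + 1) := by ring
    rw [e3, a1, h2, qo_rec]
    ring

private theorem val_fact' (m : ℕ) : 2 * padicValNat 3 m.factorial ≤ m - 1 := by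
  have : Fact (Nat.Prime 3) := ⟨Nat.prime_three⟩
  have h := sub_one_mul_padicValNat_factorial (p := 3) m
  rcases Nat.eq_zero_or_pos m with h0 | h0
  · subst h0; simp
  · have h1 : 1 ≤ (Nat.digits 3 m).sum := by
      by_contra hc
      have h2 : (Nat.digits 3 m).sum = 0 := by omega
      have h4 : m ≠ 0 := by omega
      have h5 := Nat.getLast_digit_ne_zero 3 h4
      have h6 := List.getLast_mem (l := Nat.digits 3 m) (Nat.digits_ne_nil_iff_ne_zero.2 h4)
      exact h5 (List.sum_eq_zero_iff.1 h2 _ h6)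
    omega

variable {O : ValuationSubring ℂ}

theorem v_fac (h3 : O.valuation 3 < 1) (m r : ℕ) (hr : m ≤ 2 * r + 2) :
    O.valuation 3 ^ r ≤ O.valuation (m.factorial : ℂ) := by
  have : Fact (Nat.Prime 3) := ⟨Nat.prime_three⟩
  obtain ⟨e, he⟩ : ∃ e, e = padicValNat 3 m.factorial := ⟨_, rfl⟩
  have hle : e ≤ r := by
    have := val_fact' m
    omega
  obtain ⟨b, hb⟩ : 3 ^ e ∣ m.factorial := by
    rw [he]
    exact pow_padicValNat_dvd
  have hb3 : ¬ 3 ∣ b := by
    intro hd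
    have h1 : 3 ^ (e + 1) ∣ m.factorial := by
      rw [hb, pow_succ]
      exact mul_dvd_mul_left _ hd
    rw [he] at h1
    exact pow_succ_padicValNat_not_dvd (Nat.factorial_ne_zero m) h1
  have h2 : O.valuation (m.factorial : ℂ) = O.valuation 3 ^ e := by
    rw [hb]
    push_cast
    rw [map_mul, map_pow]
    have h4 := val_int h3 (b : ℤ) (by
      intro hd
      exact hb3 (by exact_mod_cast hd))
    rw [Int.cast_natCast] at h4
    rw [h4, mul_one]
  rw [h2]
  exact pow_le_pow_right_of_le_one' h3.le hle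

theorem nat_le (O : ValuationSubring ℂ) (n : ℕ) : O.valuation (n : ℂ) ≤ 1 := by
  have h := int_mem O (n : ℤ)
  rwa [Int.cast_natCast] at h

/-- a coefficient `C` with `w ∣ m! C` -/
theorem v_coef (h3 : O.valuation 3 < 1) (m r w C : ℕ) (hr : m ≤ 2 * r + 2)
    (hd : w ∣ m.factorial * C) :
    O.valuation (C : ℂ) * O.valuation 3 ^ r ≤ O.valuation (w : ℂ) := by
  obtain ⟨c, hc⟩ := hd
  have h1 : O.valuation (m.factorial : ℂ) * O.valuation (C : ℂ) =
      O.valuation (w : ℂ) * O.valuation (c : ℂ) := by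
    rw [← map_mul, ← map_mul]
    congr 1
    exact_mod_cast hc
  calc O.valuation (C : ℂ) * O.valuation 3 ^ r
      ≤ O.valuation (C : ℂ) * O.valuation (m.factorial : ℂ) := mul_le_mul_right (v_fac h3 m r hr) _
    _ = O.valuation (w : ℂ) * O.valuation (c : ℂ) := by rw [mul_comm, h1]
    _ ≤ O.valuation (w : ℂ) * 1 := mul_le_mul_right (nat_le O c) _
    _ = O.valuation (w : ℂ) := mul_one _

theorem geo (x y : ℂ) (n : ℕ) (u : O.ValueGroup) (hx : O.valuation x ≤ u)
    (hy : O.valuation y ≤ u) :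
    O.valuation (∑ i ∈ Finset.range (n + 1), x ^ i * y ^ (n + 1 - 1 - i)) ≤ u ^ n := by
  refine Valuation.map_sum_le _ fun i hi => ?_
  have hi' : i ≤ n := Nat.lt_succ_iff.mp (Finset.mem_range.mp hi)
  rw [map_mul, map_pow, map_pow]
  have e : u ^ n = u ^ i * u ^ (n + 1 - 1 - i) := by
    rw [← pow_add]
    congr 1
    omega
  rw [e]
  exact mul_le_mul' (pow_le_pow_left' hx i) (pow_le_pow_left' hy _)

theorem dvd_odd (t r : ℕ) :
    t + 1 ∣ (2 * r + 1).factorial * (t + 1 + r).choose (2 * r + 1) := by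
  rw [← Nat.descFactorial_eq_factorial_mul_choose, Nat.descFactorial_eq_prod_range]
  have h := Finset.dvd_prod_of_mem (fun i => t + 1 + r - i)
    (show r ∈ Finset.range (2 * r + 1) from Finset.mem_range.2 (by omega))
  have e : t + 1 + r - r = t + 1 := by omega
  rw [e] at h
  exact h

theorem dvd_even (t r : ℕ) (hr : 1 ≤ r) :
    t * (t + 1) ∣ (2 * r).factorial * (t + r).choose (2 * r) := by
  rw [← Nat.descFactorial_eq_factorial_mul_choose, Nat.descFactorial_eq_prod_range]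
  have h1 := Finset.dvd_prod_of_mem (fun i => t + r - i)
    (show r ∈ Finset.range (2 * r) from Finset.mem_range.2 (by omega))
  have h2 := Finset.dvd_prod_of_mem (fun i => t + r - i)
    (show r - 1 ∈ Finset.range (2 * r) from Finset.mem_range.2 (by omega))
  have e1 : t + r - r = t := by omega
  have e2 : t + r - (r - 1) = t + 1 := by omega
  rw [e1] at h1
  rw [e2] at h2
  exact Nat.Coprime.mul_dvd_of_dvd_of_dvd (by simp) h1 h2

private theorem v3ne (O : ValuationSubring ℂ) : O.valuation (3 : ℂ) ≠ 0 :=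
  (map_ne_zero _).mpr (by norm_num)

/-- the odd case -/
private theorem odd_inj (h3 : O.valuation 3 < 1) {D : ℂ} (hD : O.valuation D = 1) (n t : ℕ)
    {a b : ℂ} (ha : O.valuation a ≤ O.valuation 3) (hb : O.valuation b ≤ O.valuation 3)
    (h : a * qo (n + 1) t (a ^ 2 / D) = b * qo (n + 1) t (b ^ 2 / D)) : a = b := by
  have hD0 : D ≠ 0 := by
    intro h0
    rw [h0, map_zero] at hD
    exact zero_ne_one hD
  by_contra hne
  have hab : a - b ≠ 0 := sub_ne_zero.2 hne
  obtain ⟨S, hS⟩ : ∃ S : ℕ → ℂ, S = fun r => ∑ i ∈ Finset.range (2 * r + 1),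
    a ^ i * b ^ (2 * r + 1 - 1 - i) := ⟨_, rfl⟩
  have hSm : ∀ r, S r * (a - b) = a ^ (2 * r + 1) - b ^ (2 * r + 1) := by
    intro r
    rw [hS]
    exact (Commute.all a b).geom_sum₂_mul (2 * r + 1)
  have hSv : ∀ r, O.valuation (S r) ≤ O.valuation 3 ^ (2 * r) := by
    intro r
    rw [hS]
    exact geo a b (2 * r) _ ha hb
  have h1 : ∑ r ∈ Finset.range (n + 1), ((t + 1 + r).choose (2 * r + 1) : ℂ) * (S r / D ^ r) = 0 := by
    have h2 : (∑ r ∈ Finset.range (n + 1), ((t + 1 + r).choose (2 * r + 1) : ℂ) * (S r / D ^ r)) *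
        (a - b) = 0 := by
      rw [← sub_eq_zero] at h
      rw [← h]
      unfold qo
      rw [Finset.sum_mul, Finset.mul_sum, Finset.mul_sum, ← Finset.sum_sub_distrib]
      refine Finset.sum_congr rfl fun r _ => ?_
      have e : ((t + 1 + r).choose (2 * r + 1) : ℂ) * (S r / D ^ r) * (a - b) =
          ((t + 1 + r).choose (2 * r + 1) : ℂ) * ((S r * (a - b)) / D ^ r) := by ring
      rw [e, hSm, div_pow, div_pow]
      field_simp
      ring
    exact (mul_eq_zero.1 h2).resolve_right hab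
  rw [Finset.sum_range_succ'] at h1
  have e0 : ((t + 1 + 0).choose (2 * 0 + 1) : ℂ) * (S 0 / D ^ 0) = ((t + 1 : ℕ) : ℂ) := by
    rw [hS]
    simp
  rw [e0] at h1
  have hlt : O.valuation (∑ r ∈ Finset.range n, ((t + 1 + (r + 1)).choose (2 * (r + 1) + 1) : ℂ) *
      (S (r + 1) / D ^ (r + 1))) ≤ O.valuation ((t + 1 : ℕ) : ℂ) * O.valuation 3 := by
    refine Valuation.map_sum_le _ fun r _ => ?_
    rw [map_mul, map_div₀, map_pow, hD, one_pow, div_one]
    have k1 := v_coef h3 (2 * (r + 1) + 1) (r + 1) (t + 1) _ (by omega) (dvd_odd t (r + 1))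
    calc O.valuation ((t + 1 + (r + 1)).choose (2 * (r + 1) + 1) : ℂ) * O.valuation (S (r + 1))
        ≤ O.valuation ((t + 1 + (r + 1)).choose (2 * (r + 1) + 1) : ℂ) *
          O.valuation 3 ^ (2 * (r + 1)) := mul_le_mul_right (hSv _) _
      _ = (O.valuation ((t + 1 + (r + 1)).choose (2 * (r + 1) + 1) : ℂ) *
          O.valuation 3 ^ (r + 1)) * (O.valuation 3 ^ r * O.valuation 3) := by
          rw [← pow_succ, mul_assoc, ← pow_add]
          congr 2
          ring
      _ ≤ O.valuation ((t + 1 : ℕ) : ℂ) * (O.valuation 3 ^ r * O.valuation 3) :=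
          mul_le_mul_left k1 _
      _ ≤ O.valuation ((t + 1 : ℕ) : ℂ) * (1 * O.valuation 3) :=
          mul_le_mul_right (mul_le_mul_left (pow_le_one' h3.le r) _) _
      _ = _ := by rw [one_mul]
  have hv : O.valuation ((t + 1 : ℕ) : ℂ) ≠ 0 := (map_ne_zero _).mpr (by exact_mod_cast Nat.succ_ne_zero t)
  have e5 : ((t + 1 : ℕ) : ℂ) = -(∑ r ∈ Finset.range n,
      ((t + 1 + (r + 1)).choose (2 * (r + 1) + 1) : ℂ) * (S (r + 1) / D ^ (r + 1))) := by
    linear_combination h1
  have h5 : O.valuation ((t + 1 : ℕ) : ℂ) ≤ O.valuation ((t + 1 : ℕ) : ℂ) * O.valuation 3 := by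
    conv_lhs => rw [e5]
    rw [Valuation.map_neg]
    exact hlt
  have h6 : O.valuation ((t + 1 : ℕ) : ℂ) * O.valuation 3 < O.valuation ((t + 1 : ℕ) : ℂ) * 1 :=
    mul_lt_mul_of_pos_left h3 (zero_lt_iff.2 hv)
  rw [mul_one] at h6
  exact absurd h5 (not_le.2 h6)

/-- the even case -/
private theorem even_inj (h3 : O.valuation 3 < 1) (n t : ℕ) (ht : 1 ≤ t)
    {z w : ℂ} (hz : O.valuation z ≤ O.valuation 3 ^ 2) (hw : O.valuation w ≤ O.valuation 3 ^ 2)
    (h : pe (n + 2) t z = pe (n + 2) t w) : z = w := by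
  by_contra hne
  have hab : z - w ≠ 0 := sub_ne_zero.2 hne
  obtain ⟨S, hS⟩ : ∃ S : ℕ → ℂ, S = fun r => ∑ i ∈ Finset.range (r + 1),
    z ^ i * w ^ (r + 1 - 1 - i) := ⟨_, rfl⟩
  have hSm : ∀ r, S r * (z - w) = z ^ (r + 1) - w ^ (r + 1) := by
    intro r
    rw [hS]
    exact (Commute.all z w).geom_sum₂_mul (r + 1)
  have hSv : ∀ r, O.valuation (S r) ≤ (O.valuation 3 ^ 2) ^ r := by
    intro r
    rw [hS]
    exact geo z w r _ hz hw
  have h1 : ∑ r ∈ Finset.range (n + 1), ((t + (r + 1)).choose (2 * (r + 1)) : ℂ) * S r = 0 := by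
    have h2 : (∑ r ∈ Finset.range (n + 1), ((t + (r + 1)).choose (2 * (r + 1)) : ℂ) * S r) *
        (z - w) = 0 := by
      rw [← sub_eq_zero] at h
      rw [← h]
      unfold pe
      rw [Finset.sum_range_succ' (fun r => ((t + r).choose (2 * r) : ℂ) * z ^ r),
        Finset.sum_range_succ' (fun r => ((t + r).choose (2 * r) : ℂ) * w ^ r), Finset.sum_mul]
      have e : ∀ r ∈ Finset.range (n + 1), ((t + (r + 1)).choose (2 * (r + 1)) : ℂ) * S r * (z - w) =
          ((t + (r + 1)).choose (2 * (r + 1)) : ℂ) * z ^ (r + 1) -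
          ((t + (r + 1)).choose (2 * (r + 1)) : ℂ) * w ^ (r + 1) := by
        intro r _
        rw [mul_assoc, hSm]
        ring
      rw [Finset.sum_congr rfl e, Finset.sum_sub_distrib]
      simp
    exact (mul_eq_zero.1 h2).resolve_right hab
  rw [Finset.sum_range_succ'] at h1
  have e0 : ((t + (0 + 1)).choose (2 * (0 + 1)) : ℂ) * S 0 = ((t * (t + 1) : ℕ) : ℂ) / 2 := by
    rw [hS]
    have e1 : (2 : ℂ) * ((t + (0 + 1)).choose (2 * (0 + 1)) : ℂ) = ((t * (t + 1) : ℕ) : ℂ) := by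
      have e2 : 2 * (t + (0 + 1)).choose (2 * (0 + 1)) = t * (t + 1) := by
        have e3 := Nat.triangle_succ t
        rw [Nat.zero_add, Nat.choose_two_right, Nat.add_sub_cancel]
        have e4 : 2 ∣ (t + 1) * t := by
          rw [mul_comm]
          exact (Nat.even_mul_succ_self t).two_dvd
        rw [Nat.mul_div_cancel' e4, mul_comm]
      exact_mod_cast e2
    simp only [zero_add, Finset.sum_range_one, pow_zero, mul_one, Nat.sub_self, mul_one]
    rw [eq_div_iff two_ne_zero, mul_comm]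
    exact e1
  rw [e0] at h1
  obtain ⟨W, hW⟩ : ∃ W : ℂ, W = ((t * (t + 1) : ℕ) : ℂ) := ⟨_, rfl⟩
  rw [← hW] at h1
  have hlt : O.valuation (∑ r ∈ Finset.range n, ((t + (r + 1 + 1)).choose (2 * (r + 1 + 1)) : ℂ) *
      S (r + 1)) ≤ O.valuation W * O.valuation 3 := by
    refine Valuation.map_sum_le _ fun r _ => ?_
    rw [map_mul, hW]
    have k1 := v_coef h3 (2 * (r + 1 + 1)) (r + 1) (t * (t + 1)) _ (by omega)
      (dvd_even t (r + 1 + 1) (by omega))
    calc O.valuation ((t + (r + 1 + 1)).choose (2 * (r + 1 + 1)) : ℂ) * O.valuation (S (r + 1))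
        ≤ O.valuation ((t + (r + 1 + 1)).choose (2 * (r + 1 + 1)) : ℂ) *
          (O.valuation 3 ^ 2) ^ (r + 1) := mul_le_mul_right (hSv _) _
      _ = (O.valuation ((t + (r + 1 + 1)).choose (2 * (r + 1 + 1)) : ℂ) *
          O.valuation 3 ^ (r + 1)) * (O.valuation 3 ^ r * O.valuation 3) := by
          rw [← pow_succ, mul_assoc, ← pow_add, ← pow_mul]
          congr 2
          ring
      _ ≤ O.valuation ((t * (t + 1) : ℕ) : ℂ) * (O.valuation 3 ^ r * O.valuation 3) :=
          mul_le_mul_left k1 _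
      _ ≤ O.valuation ((t * (t + 1) : ℕ) : ℂ) * (1 * O.valuation 3) :=
          mul_le_mul_right (mul_le_mul_left (pow_le_one' h3.le r) _) _
      _ = _ := by rw [one_mul]
  have hW0 : W ≠ 0 := by
    rw [hW]
    have : t * (t + 1) ≠ 0 := Nat.mul_ne_zero (by omega) (by omega)
    exact_mod_cast this
  have hv : O.valuation W ≠ 0 := (map_ne_zero _).mpr hW0
  have hv2 : O.valuation (2 : ℂ) = 1 := by
    have h := val_int h3 2 (by norm_num)
    simpa using h
  have e5 : W = -(2 * (∑ r ∈ Finset.range n,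
      ((t + (r + 1 + 1)).choose (2 * (r + 1 + 1)) : ℂ) * S (r + 1))) := by
    linear_combination 2 * h1
  have h5 : O.valuation W ≤ O.valuation W * O.valuation 3 := by
    conv_lhs => rw [e5]
    rw [Valuation.map_neg, map_mul, hv2, one_mul]
    exact hlt
  have h6 : O.valuation W * O.valuation 3 < O.valuation W * 1 :=
    mul_lt_mul_of_pos_left h3 (zero_lt_iff.2 hv)
  rw [mul_one] at h6
  exact absurd h5 (not_le.2 h6)

/-- `p_t(z)` is a unit -/
private theorem even_ne (h3 : O.valuation 3 < 1) (n t : ℕ) {z : ℂ}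
    (hz : O.valuation z ≤ O.valuation 3 ^ 2) : pe (n + 1) t z ≠ 0 := by
  intro h
  unfold pe at h
  rw [Finset.sum_range_succ'] at h
  have hz1 : O.valuation z < 1 := lt_of_le_of_lt hz (pow_lt_one₀ zero_le h3 (by norm_num))
  have hlt : O.valuation (∑ r ∈ Finset.range n, ((t + (r + 1)).choose (2 * (r + 1)) : ℂ) *
      z ^ (r + 1)) ≤ O.valuation z := by
    refine Valuation.map_sum_le _ fun r _ => ?_
    rw [map_mul, map_pow, pow_succ, ← mul_assoc]
    refine mul_le_of_le_one_left' ?_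
    exact mul_le_one' (nat_le O _) (pow_le_one' hz1.le r)
  have e : (1 : ℂ) = -(∑ r ∈ Finset.range n, ((t + (r + 1)).choose (2 * (r + 1)) : ℂ) *
      z ^ (r + 1)) := by
    have h0 : ((t + 0).choose (2 * 0) : ℂ) * z ^ 0 = 1 := by simp
    rw [h0] at h
    linear_combination h
  have h1 : O.valuation (1 : ℂ) ≤ O.valuation z := by
    conv_lhs => rw [e]
    rw [Valuation.map_neg]
    exact hlt
  rw [map_one] at h1
  exact absurd h1 (not_le.2 hz1)

private theorem sq_le {D a : ℂ} (hD : O.valuation D = 1)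
    (ha : O.valuation a ≤ O.valuation 3) : O.valuation (a ^ 2 / D) ≤ O.valuation 3 ^ 2 := by
  rw [map_div₀, map_pow, hD, div_one]
  exact pow_le_pow_left' ha 2

/-- `U_j` separates points of the disc, up to sign if `j` is even -/
theorem Uc_inj (h3 : O.valuation 3 < 1) {M : ℂ} (hM : O.valuation M = 1) (j : ℕ) (hj : 1 ≤ j)
    {a b : ℂ} (ha : O.valuation a ≤ O.valuation 3) (hb : O.valuation b ≤ O.valuation 3)
    (h : Uc M a j = Uc M b j) : a = b ∨ a = -b := by
  obtain ⟨D, rfl⟩ : ∃ D, M = -D := ⟨-M, by ring⟩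
  rw [Valuation.map_neg] at hM
  have hD0 : D ≠ 0 := by
    intro h0
    rw [h0, map_zero] at hM
    exact zero_ne_one hM
  rcases Nat.even_or_odd' j with ⟨t, rfl | rfl⟩
  · rw [(U_form (t + 2) D a hD0 t (by omega)).1, (U_form (t + 2) D b hD0 t (by omega)).1] at h
    have h1 := mul_left_cancel₀ (pow_ne_zero _ hD0) h
    have h2 := even_inj h3 t t (by omega) (sq_le hM ha) (sq_le hM hb) h1
    have h4 : a ^ 2 = b ^ 2 := by
      field_simp at h2
      exact h2
    exact sq_eq_sq_iff_eq_or_eq_neg.1 h4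
  · left
    rw [(U_form (t + 1) D a hD0 t (by omega)).2, (U_form (t + 1) D b hD0 t (by omega)).2] at h
    have h1 : a * qo (t + 1) t (a ^ 2 / D) = b * qo (t + 1) t (b ^ 2 / D) := by
      have h2 : D ^ t * (a * qo (t + 1) t (a ^ 2 / D)) = D ^ t * (b * qo (t + 1) t (b ^ 2 / D)) := by
        linear_combination h
      exact mul_left_cancel₀ (pow_ne_zero _ hD0) h2
    exact odd_inj h3 hM t t ha hb h1

/-- `U_j` has no zero in the disc, except possibly `0` -/
theorem Uc_ne (h3 : O.valuation 3 < 1) {M : ℂ} (hM : O.valuation M = 1) (j : ℕ)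
    {a : ℂ} (ha : O.valuation a ≤ O.valuation 3) (h : Uc M a j = 0) : a = 0 := by
  obtain ⟨D, rfl⟩ : ∃ D, M = -D := ⟨-M, by ring⟩
  rw [Valuation.map_neg] at hM
  have hD0 : D ≠ 0 := by
    intro h0
    rw [h0, map_zero] at hM
    exact zero_ne_one hM
  rcases Nat.even_or_odd' j with ⟨t, rfl | rfl⟩
  · rw [(U_form (t + 1) D a hD0 t (by omega)).1] at h
    rcases mul_eq_zero.1 h with h1 | h1
    · exact absurd h1 (pow_ne_zero _ hD0)
    · exact absurd h1 (even_ne h3 t t (sq_le hM ha))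
  · rw [(U_form (t + 1) D a hD0 t (by omega)).2] at h
    have h1 : a * qo (t + 1) t (a ^ 2 / D) = 0 * qo (t + 1) t (0 ^ 2 / D) := by
      have h2 : D ^ t * (a * qo (t + 1) t (a ^ 2 / D)) = 0 := by
        linear_combination h
      rw [(mul_eq_zero.1 h2).resolve_left (pow_ne_zero _ hD0), zero_mul]
    exact odd_inj h3 hM t t ha (by rw [map_zero]; exact zero_le) h1

end Pool.Agent.Lib.MP_06b9d2_p2
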