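import Pool.Agent.Lib.MP_06b9d2_nt.ME.HeckeN
import Pool.Agent.Lib.MP_06b9d2_p2.Cons
import Pool.Agent.Lib.MP_06b9d2_p2.Cheb

/-!
MP_06b9d2_nt: the Hecke operators of prime powers are polynomials in `T_l`: `T_(l^j) = U_j(T_l)`,
`U_0 = 1`, `U_1 = X`, `U_(j+2) = X U_(j+1) - l^(k-1) U_j`.
-/

namespace Pool.Agent.Lib.MP_06b9d2_p2

open UpperHalfPlane Pool.Agent.Lib.MP_06b9d2_nt.ME
open Pool.Agent.Lib.MP_06b9d2_nt (IsHecke)
open scoped MatrixGroups ModularForm Manifold Topology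

/-- the polynomial `U_j` -/
noncomputable def Up (M : ℂ) : ℕ → Polynomial ℂ
  | 0 => 1
  | 1 => Polynomial.X
  | (j + 2) => Polynomial.X * Up M (j + 1) - Polynomial.C M * Up M j

theorem Up_eval (M a : ℂ) (j : ℕ) : (Up M j).eval a = Uc M a j := by
  induction j using Nat.twoStepInduction with
  | zero => simp [Up, Uc]
  | one => simp [Up, Uc]
  | more j h1 h2 => simp only [Up, Uc, Polynomial.eval_sub, Polynomial.eval_mul, Polynomial.eval_X,
      Polynomial.eval_C, h1, h2]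

/-- the coefficient `M` of `T_(l^j)` of the form with the coefficients `c` -/
private noncomputable def AA (l : ℕ) (K : ℂ) (c : ℕ → ℂ) (j M : ℕ) : ℂ :=
  ∑ i ∈ Finset.range (j + 1), if l ^ i ∣ M then K ^ i * c (M * l ^ j / (l ^ i) ^ 2) else 0

private theorem AA_zero (l : ℕ) (K : ℂ) (c : ℕ → ℂ) (M : ℕ) : AA l K c 0 M = c M := by
  simp [AA]

private theorem AA_mul {l : ℕ} (hl : 0 < l) (K : ℂ) (c : ℕ → ℂ) (j M : ℕ) :
    AA l K c (j + 1) (l * M) = c (l * M * l ^ (j + 1)) + K * AA l K c j M := by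
  unfold AA
  rw [Finset.sum_range_succ', add_comm]
  congr 1
  · simp
  · rw [Finset.mul_sum]
    refine Finset.sum_congr rfl fun i _ => ?_
    have h1 : l ^ (i + 1) ∣ l * M ↔ l ^ i ∣ M := by
      rw [pow_succ', Nat.mul_dvd_mul_iff_left hl]
    have h2 : l * M * l ^ (j + 1) / (l ^ (i + 1)) ^ 2 = M * l ^ j / (l ^ i) ^ 2 := by
      have e1 : l * M * l ^ (j + 1) = M * l ^ j * l ^ 2 := by ring
      have e2 : (l ^ (i + 1)) ^ 2 = (l ^ i) ^ 2 * l ^ 2 := by ring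
      rw [e1, e2, Nat.mul_div_mul_right _ _ (by positivity)]
    by_cases h : l ^ i ∣ M
    · rw [if_pos (h1.2 h), if_pos h, h2]
      ring
    · rw [if_neg (fun h' => h (h1.1 h')), if_neg h, mul_zero]

private theorem AA_not {l : ℕ} (K : ℂ) (c : ℕ → ℂ) (j M : ℕ) (hM : ¬ l ∣ M) :
    AA l K c j M = c (M * l ^ j) := by
  unfold AA
  rw [Finset.sum_range_succ', Finset.sum_eq_zero, zero_add]
  · simp
  · intro i _
    rw [if_neg fun h => hM ((dvd_pow_self l (Nat.succ_ne_zero i)).trans h)]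

private theorem div_sum {l : ℕ} (hl : l.Prime) (j M : ℕ) (hM : 0 < M) (g : ℕ → ℂ) :
    ∑ d ∈ (Nat.gcd M (l ^ j)).divisors, g d =
      ∑ i ∈ Finset.range (j + 1), if l ^ i ∣ M then g (l ^ i) else 0 := by
  have h1 : (Nat.gcd M (l ^ j)).divisors = (l ^ j).divisors.filter (· ∣ M) := by
    ext d
    rw [Nat.mem_divisors, Finset.mem_filter, Nat.mem_divisors, Nat.dvd_gcd_iff]
    have h2 : Nat.gcd M (l ^ j) ≠ 0 := (Nat.gcd_pos_of_pos_left _ hM).ne'
    have h3 : l ^ j ≠ 0 := pow_ne_zero _ hl.ne_zero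
    tauto
  rw [h1, Finset.sum_filter, Nat.sum_divisors_prime_pow hl]

private theorem coeff_AA {k : ℤ} {l : ℕ} (hl : l.Prime) (j : ℕ)
    {T : CuspForm 𝒮ℒ k →ₗ[ℂ] CuspForm 𝒮ℒ k} (hT : IsHecke k (l ^ j) T) (f : CuspForm 𝒮ℒ k) (M : ℕ)
    (hM : 0 < M) : (qExpansion 1 (T f)).coeff M =
      AA l ((l : ℂ) ^ (k - 1)) (fun m => (qExpansion 1 f).coeff m) j M := by
  have : NeZero (l ^ j) := ⟨pow_ne_zero _ hl.ne_zero⟩
  rw [hecke_qn hT f M hM, div_sum hl j M hM]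
  unfold AA
  refine Finset.sum_congr rfl fun i _ => ?_
  have h1 : (((l ^ i : ℕ) : ℂ)) ^ (k - 1) = ((l : ℂ) ^ (k - 1)) ^ i := by
    push_cast
    rw [← zpow_natCast, ← zpow_natCast, ← zpow_mul, ← zpow_mul, mul_comm]
  rw [h1]

/-- the `q`-expansion as a linear map -/
private noncomputable def qL (k : ℤ) : CuspForm 𝒮ℒ k →ₗ[ℂ] PowerSeries ℂ where
  toFun f := qExpansion 1 f
  map_add' f g := ModularForm.qExpansion_add one_pos one_mem_strictPeriods_SL f g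
  map_smul' c f := ModularForm.qExpansion_smul one_pos one_mem_strictPeriods_SL c f

private theorem ext_q {k : ℤ} {f g : CuspForm 𝒮ℒ k}
    (h : ∀ M, 0 < M → (qExpansion 1 f).coeff M = (qExpansion 1 g).coeff M) : f = g := by
  have h1 : qExpansion 1 (f - g) = 0 := by
    have h0 : qExpansion 1 (f - g) = qExpansion 1 f - qExpansion 1 g := map_sub (qL k) f g
    ext M
    rw [h0, map_sub, map_zero]
    rcases Nat.eq_zero_or_pos M with rfl | hM
    · rw [CuspFormClass.qExpansion_coeff_zero f one_pos one_mem_strictPeriods_SL,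
        CuspFormClass.qExpansion_coeff_zero g one_pos one_mem_strictPeriods_SL, sub_zero]
    · rw [h M hM, sub_self]
  have h2 := (ModularForm.qExpansion_eq_zero_iff one_pos one_mem_strictPeriods_SL
    (CuspForm.toModularFormₗ (f - g))).1 h1
  have h3 : f - g = 0 := by
    apply CuspForm.toModularFormₗ_injective
    rw [h2, map_zero]
  exact sub_eq_zero.1 h3

private theorem step {k : ℤ} {l : ℕ} (hl : l.Prime) (j : ℕ)
    {T T0 T1 T2 : CuspForm 𝒮ℒ k →ₗ[ℂ] CuspForm 𝒮ℒ k} (hT : IsHecke k l T)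
    (h0 : IsHecke k (l ^ j) T0) (h1 : IsHecke k (l ^ (j + 1)) T1) (h2 : IsHecke k (l ^ (j + 2)) T2) :
    T2 = T * T1 - ((l : ℂ) ^ (k - 1)) • T0 := by
  apply LinearMap.ext
  intro f
  apply ext_q
  intro M hM
  obtain ⟨K, hK⟩ : ∃ K : ℂ, K = (l : ℂ) ^ (k - 1) := ⟨_, rfl⟩
  have hT' : IsHecke k (l ^ 1) T := by rw [pow_one]; exact hT
  have e1 : (qExpansion 1 ((T * T1 - K • T0) f)).coeff M =
      (qExpansion 1 (T (T1 f))).coeff M - K * (qExpansion 1 (T0 f)).coeff M := by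
    rw [LinearMap.sub_apply, LinearMap.smul_apply, Module.End.mul_apply]
    have e0 : qExpansion 1 ((T (T1 f) - K • T0 f : CuspForm 𝒮ℒ k) : ℍ → ℂ) =
        qExpansion 1 (T (T1 f)) - K • qExpansion 1 (T0 f) := by
      have h3 := map_sub (qL k) (T (T1 f)) (K • T0 f)
      rw [map_smul] at h3
      exact h3
    rw [e0, map_sub, map_smul, smul_eq_mul]
  rw [← hK, e1, coeff_AA hl _ h2 f M hM, coeff_AA hl _ hT' (T1 f) M hM, coeff_AA hl _ h0 f M hM, ← hK]
  have hlM : 0 < l * M := Nat.mul_pos hl.pos hM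
  by_cases hd : l ∣ M
  · obtain ⟨m, rfl⟩ := hd
    have hm : 0 < m := Nat.pos_of_ne_zero (by rintro rfl; simp at hM)
    have hlm : 0 < l * (l * m) := Nat.mul_pos hl.pos hM
    rw [AA_mul hl.pos, AA_mul hl.pos, AA_zero]
    have e2 : l * m * l ^ (0 + 1) = l * (l * m) := by ring
    rw [e2, coeff_AA hl _ h1 f _ hlm, coeff_AA hl _ h1 f _ hm, ← hK, AA_mul hl.pos]
    have e3 : l * (l * m) * l ^ (j + 1) = l * m * l ^ (j + 1 + 1) := by ring
    rw [e3]
    ring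
  · rw [AA_not _ _ _ _ hd, AA_not _ _ 1 _ hd]
    have e2 : M * l ^ 1 = l * M := by ring
    rw [e2, coeff_AA hl _ h1 f _ hlM, ← hK, AA_mul hl.pos]
    have e3 : l * M * l ^ (j + 1) = M * l ^ (j + 2) := by ring
    rw [e3]
    ring

/-- `T_(l^j) = U_j(T_l)` -/
theorem hecke_pow {k : ℤ} {l : ℕ} (hl : l.Prime) {T : CuspForm 𝒮ℒ k →ₗ[ℂ] CuspForm 𝒮ℒ k}
    (hT : IsHecke k l T) (j : ℕ) : ∀ T' : CuspForm 𝒮ℒ k →ₗ[ℂ] CuspForm 𝒮ℒ k,
      IsHecke k (l ^ j) T' → T' = Polynomial.aeval T (Up ((l : ℂ) ^ (k - 1)) j) := by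
  induction j using Nat.twoStepInduction with
  | zero =>
    intro T' hT'
    rw [Up, map_one]
    apply LinearMap.ext
    intro f
    apply ext_q
    intro M hM
    rw [coeff_AA hl 0 hT' f M hM, AA_zero, Module.End.one_apply]
  | one =>
    intro T' hT'
    rw [Up, Polynomial.aeval_X]
    have hT1 : IsHecke k (l ^ 1) T := by rw [pow_one]; exact hT
    apply LinearMap.ext
    intro f
    apply ext_q
    intro M hM
    rw [coeff_AA hl 1 hT' f M hM, coeff_AA hl 1 hT1 f M hM]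
  | more j ih0 ih1 =>
    intro T' hT'
    obtain ⟨T0, h0⟩ := hecke_ex k (l ^ j) (pow_ne_zero _ hl.ne_zero)
    obtain ⟨T1, h1⟩ := hecke_ex k (l ^ (j + 1)) (pow_ne_zero _ hl.ne_zero)
    rw [step hl j hT h0 h1 hT', Up, map_sub, map_mul, map_mul, Polynomial.aeval_X,
      Polynomial.aeval_C, ih0 T0 h0, ih1 T1 h1, Algebra.smul_def]

end Pool.Agent.Lib.MP_06b9d2_p2
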