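import Pool.Agent.Lib.MP_06b9d2_p2.Cheb1

/-!
MP_06b9d2_nt: the polynomials `U_j` at the prime `2`: they separate the points of the disc of radius `|4|`
about `0`, up to sign (`M` a unit), and the points near `2 √M` (`M ≡ 1` modulo `4`).
-/

namespace Pool.Agent.Lib.MP_06b9d2_p2

variable {O : ValuationSubring ℂ}

private theorem int_le (O : ValuationSubring ℂ) (n : ℤ) : O.valuation (n : ℂ) ≤ 1 :=
  Pool.Agent.Lib.MP_06b9d2_ssp.int_mem O n

theorem val_odd (h2 : O.valuation 2 < 1) (n : ℤ) (hn : ¬ (2 : ℤ) ∣ n) :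
    O.valuation (n : ℂ) = 1 := by
  obtain ⟨m, hm⟩ : ∃ m : ℤ, n = 2 * m + 1 := ⟨n / 2, by omega⟩
  have h1 : O.valuation ((2 * m : ℤ) : ℂ) < 1 := by
    push_cast
    rw [map_mul]
    exact lt_of_le_of_lt (mul_le_of_le_one_right' (int_le O m)) h2
  have e : (n : ℂ) = 1 + ((2 * m : ℤ) : ℂ) := by
    rw [hm]
    push_cast
    ring
  rw [e, Valuation.map_add_eq_of_lt_left _ (by rw [map_one]; exact h1), map_one]

private theorem val_two (m : ℕ) : padicValNat 2 m.factorial ≤ m - 1 := by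
  have : Fact (Nat.Prime 2) := ⟨Nat.prime_two⟩
  have h := sub_one_mul_padicValNat_factorial (p := 2) m
  rcases Nat.eq_zero_or_pos m with h0 | h0
  · subst h0; simp
  · have h1 : 1 ≤ (Nat.digits 2 m).sum := by
      by_contra hc
      have h2 : (Nat.digits 2 m).sum = 0 := by omega
      have h4 : m ≠ 0 := by omega
      have h5 := Nat.getLast_digit_ne_zero 2 h4
      have h6 := List.getLast_mem (l := Nat.digits 2 m) (Nat.digits_ne_nil_iff_ne_zero.2 h4)
      exact h5 (List.sum_eq_zero_iff.1 h2 _ h6)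
    omega

private theorem v_fac2 (h2 : O.valuation 2 < 1) (m r : ℕ) (hr : m ≤ r + 1) :
    O.valuation 2 ^ r ≤ O.valuation (m.factorial : ℂ) := by
  have : Fact (Nat.Prime 2) := ⟨Nat.prime_two⟩
  obtain ⟨e, he⟩ : ∃ e, e = padicValNat 2 m.factorial := ⟨_, rfl⟩
  have hle : e ≤ r := by
    have := val_two m
    omega
  obtain ⟨b, hb⟩ : 2 ^ e ∣ m.factorial := by
    rw [he]
    exact pow_padicValNat_dvd
  have hb3 : ¬ 2 ∣ b := by
    intro hd
    have h1 : 2 ^ (e + 1) ∣ m.factorial := by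
      rw [hb, pow_succ]
      exact mul_dvd_mul_left _ hd
    rw [he] at h1
    exact pow_succ_padicValNat_not_dvd (Nat.factorial_ne_zero m) h1
  have h4 : O.valuation (m.factorial : ℂ) = O.valuation 2 ^ e := by
    rw [hb]
    push_cast
    rw [map_mul, map_pow]
    have h4 := val_odd h2 (b : ℤ) (by
      intro hd
      exact hb3 (by exact_mod_cast hd))
    rw [Int.cast_natCast] at h4
    rw [h4, mul_one]
  rw [h4]
  exact pow_le_pow_right_of_le_one' h2.le hle

/-- `(2 i + 1)!` -/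
private theorem v_fac2' (h2 : O.valuation 2 < 1) (i : ℕ) :
    O.valuation 2 ^ (2 * i - 1) ≤ O.valuation ((2 * i + 1).factorial : ℂ) := by
  have h1 := val_odd h2 ((2 * i + 1 : ℕ) : ℤ) (by omega)
  rw [Int.cast_natCast] at h1
  rw [Nat.factorial_succ, Nat.cast_mul, map_mul, h1, one_mul]
  exact v_fac2 h2 _ _ (by omega)

private theorem v_coef2 (m w C : ℕ) (g : O.ValueGroup) (hr : g ≤ O.valuation (m.factorial : ℂ))
    (hd : w ∣ m.factorial * C) : O.valuation (C : ℂ) * g ≤ O.valuation (w : ℂ) := by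
  obtain ⟨c, hc⟩ := hd
  have h1 : O.valuation (m.factorial : ℂ) * O.valuation (C : ℂ) =
      O.valuation (w : ℂ) * O.valuation (c : ℂ) := by
    rw [← map_mul, ← map_mul]
    congr 1
    exact_mod_cast hc
  calc O.valuation (C : ℂ) * g
      ≤ O.valuation (C : ℂ) * O.valuation (m.factorial : ℂ) := mul_le_mul_right hr _
    _ = O.valuation (w : ℂ) * O.valuation (c : ℂ) := by rw [mul_comm, h1]
    _ ≤ O.valuation (w : ℂ) * 1 := mul_le_mul_right (nat_le O c) _
    _ = O.valuation (w : ℂ) := mul_one _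

/-- the odd case -/
private theorem odd_inj2 (h2 : O.valuation 2 < 1) {D : ℂ} (hD : O.valuation D = 1) (n t : ℕ)
    {a b : ℂ} (ha : O.valuation a ≤ O.valuation 2 ^ 2) (hb : O.valuation b ≤ O.valuation 2 ^ 2)
    (h : a * qo (n + 1) t (a ^ 2 / D) = b * qo (n + 1) t (b ^ 2 / D)) : a = b := by
  have hD0 : D ≠ 0 := by
    intro h0
    rw [h0, map_zero] at hD
    exact zero_ne_one hD
  by_contra hne
  have hab : a - b ≠ 0 := sub_ne_zero.2 hne
  obtain ⟨S, hS⟩ : ∃ S : ℕ → ℂ, S = fun r => ∑ i ∈ Finset.range (2 * r + 1),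
    a ^ i * b ^ (2 * r + 1 - 1 - i) := ⟨_, rfl⟩
  have hSm : ∀ r, S r * (a - b) = a ^ (2 * r + 1) - b ^ (2 * r + 1) := by
    intro r
    rw [hS]
    exact (Commute.all a b).geom_sum₂_mul (2 * r + 1)
  have hSv : ∀ r, O.valuation (S r) ≤ (O.valuation 2 ^ 2) ^ (2 * r) := by
    intro r
    rw [hS]
    exact geo a b (2 * r) _ ha hb
  have h1 : ∑ r ∈ Finset.range (n + 1), ((t + 1 + r).choose (2 * r + 1) : ℂ) * (S r / D ^ r) = 0 := by
    have h3 : (∑ r ∈ Finset.range (n + 1), ((t + 1 + r).choose (2 * r + 1) : ℂ) * (S r / D ^ r)) *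
        (a - b) = 0 := by
      rw [← sub_eq_zero] at h
      rw [← h]
      unfold qo
      rw [Finset.sum_mul, Finset.mul_sum, Finset.mul_sum, ← Finset.sum_sub_distrib]
      refine Finset.sum_congr rfl fun r _ => ?_
      have e : ((t + 1 + r).choose (2 * r + 1) : ℂ) * (S r / D ^ r) * (a - b) =
          ((t + 1 + r).choose (2 * r + 1) : ℂ) * ((S r * (a - b)) / D ^ r) := by ring
      rw [e, hSm, div_pow, div_pow]
      field_simp
      ring
    exact (mul_eq_zero.1 h3).resolve_right hab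
  rw [Finset.sum_range_succ'] at h1
  have e0 : ((t + 1 + 0).choose (2 * 0 + 1) : ℂ) * (S 0 / D ^ 0) = ((t + 1 : ℕ) : ℂ) := by
    rw [hS]
    simp
  rw [e0] at h1
  have hlt : O.valuation (∑ r ∈ Finset.range n, ((t + 1 + (r + 1)).choose (2 * (r + 1) + 1) : ℂ) *
      (S (r + 1) / D ^ (r + 1))) ≤ O.valuation ((t + 1 : ℕ) : ℂ) * O.valuation 2 := by
    refine Valuation.map_sum_le _ fun r _ => ?_
    rw [map_mul, map_div₀, map_pow, hD, one_pow, div_one]
    have k1 := v_coef2 (2 * (r + 1) + 1) (t + 1) _ _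
      (v_fac2 h2 (2 * (r + 1) + 1) (2 * (r + 1)) (by omega)) (dvd_odd t (r + 1))
    calc O.valuation ((t + 1 + (r + 1)).choose (2 * (r + 1) + 1) : ℂ) * O.valuation (S (r + 1))
        ≤ O.valuation ((t + 1 + (r + 1)).choose (2 * (r + 1) + 1) : ℂ) *
          (O.valuation 2 ^ 2) ^ (2 * (r + 1)) := mul_le_mul_right (hSv _) _
      _ = (O.valuation ((t + 1 + (r + 1)).choose (2 * (r + 1) + 1) : ℂ) *
          O.valuation 2 ^ (2 * (r + 1))) * (O.valuation 2 ^ (2 * r + 1) * O.valuation 2) := by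
          rw [← pow_succ, mul_assoc, ← pow_add, ← pow_mul]
          congr 2
          ring
      _ ≤ O.valuation ((t + 1 : ℕ) : ℂ) * (O.valuation 2 ^ (2 * r + 1) * O.valuation 2) :=
          mul_le_mul_left k1 _
      _ ≤ O.valuation ((t + 1 : ℕ) : ℂ) * (1 * O.valuation 2) :=
          mul_le_mul_right (mul_le_mul_left (pow_le_one' h2.le _) _) _
      _ = _ := by rw [one_mul]
  have hv : O.valuation ((t + 1 : ℕ) : ℂ) ≠ 0 := (map_ne_zero _).mpr (by exact_mod_cast Nat.succ_ne_zero t)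
  have e5 : ((t + 1 : ℕ) : ℂ) = -(∑ r ∈ Finset.range n,
      ((t + 1 + (r + 1)).choose (2 * (r + 1) + 1) : ℂ) * (S (r + 1) / D ^ (r + 1))) := by
    linear_combination h1
  have h5 : O.valuation ((t + 1 : ℕ) : ℂ) ≤ O.valuation ((t + 1 : ℕ) : ℂ) * O.valuation 2 := by
    conv_lhs => rw [e5]
    rw [Valuation.map_neg]
    exact hlt
  have h6 : O.valuation ((t + 1 : ℕ) : ℂ) * O.valuation 2 < O.valuation ((t + 1 : ℕ) : ℂ) * 1 :=
    mul_lt_mul_of_pos_left h2 (zero_lt_iff.2 hv)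
  rw [mul_one] at h6
  exact absurd h5 (not_le.2 h6)

/-- the even case -/
private theorem even_inj2 (h2 : O.valuation 2 < 1) (n t : ℕ) (ht : 1 ≤ t)
    {z w : ℂ} (hz : O.valuation z ≤ O.valuation 2 ^ 4) (hw : O.valuation w ≤ O.valuation 2 ^ 4)
    (h : pe (n + 2) t z = pe (n + 2) t w) : z = w := by
  by_contra hne
  have hab : z - w ≠ 0 := sub_ne_zero.2 hne
  obtain ⟨S, hS⟩ : ∃ S : ℕ → ℂ, S = fun r => ∑ i ∈ Finset.range (r + 1),
    z ^ i * w ^ (r + 1 - 1 - i) := ⟨_, rfl⟩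
  have hSm : ∀ r, S r * (z - w) = z ^ (r + 1) - w ^ (r + 1) := by
    intro r
    rw [hS]
    exact (Commute.all z w).geom_sum₂_mul (r + 1)
  have hSv : ∀ r, O.valuation (S r) ≤ (O.valuation 2 ^ 4) ^ r := by
    intro r
    rw [hS]
    exact geo z w r _ hz hw
  have h1 : ∑ r ∈ Finset.range (n + 1), ((t + (r + 1)).choose (2 * (r + 1)) : ℂ) * S r = 0 := by
    have h3 : (∑ r ∈ Finset.range (n + 1), ((t + (r + 1)).choose (2 * (r + 1)) : ℂ) * S r) *
        (z - w) = 0 := by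
      rw [← sub_eq_zero] at h
      rw [← h]
      unfold pe
      rw [Finset.sum_range_succ' (fun r => ((t + r).choose (2 * r) : ℂ) * z ^ r),
        Finset.sum_range_succ' (fun r => ((t + r).choose (2 * r) : ℂ) * w ^ r), Finset.sum_mul]
      have e : ∀ r ∈ Finset.range (n + 1), ((t + (r + 1)).choose (2 * (r + 1)) : ℂ) * S r * (z - w) =
          ((t + (r + 1)).choose (2 * (r + 1)) : ℂ) * z ^ (r + 1) -
          ((t + (r + 1)).choose (2 * (r + 1)) : ℂ) * w ^ (r + 1) := by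
        intro r _
        rw [mul_assoc, hSm]
        ring
      rw [Finset.sum_congr rfl e, Finset.sum_sub_distrib]
      simp
    exact (mul_eq_zero.1 h3).resolve_right hab
  rw [Finset.sum_range_succ'] at h1
  have e0 : ((t + (0 + 1)).choose (2 * (0 + 1)) : ℂ) * S 0 = ((t * (t + 1) : ℕ) : ℂ) / 2 := by
    rw [hS]
    have e1 : (2 : ℂ) * ((t + (0 + 1)).choose (2 * (0 + 1)) : ℂ) = ((t * (t + 1) : ℕ) : ℂ) := by
      have e2 : 2 * (t + (0 + 1)).choose (2 * (0 + 1)) = t * (t + 1) := by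
        rw [Nat.zero_add, Nat.choose_two_right, Nat.add_sub_cancel]
        have e4 : 2 ∣ (t + 1) * t := by
          rw [mul_comm]
          exact (Nat.even_mul_succ_self t).two_dvd
        rw [Nat.mul_div_cancel' e4, mul_comm]
      exact_mod_cast e2
    simp only [zero_add, Finset.sum_range_one, pow_zero, mul_one, Nat.sub_self, mul_one]
    rw [eq_div_iff two_ne_zero, mul_comm]
    exact e1
  rw [e0] at h1
  obtain ⟨W, hW⟩ : ∃ W : ℂ, W = ((t * (t + 1) : ℕ) : ℂ) := ⟨_, rfl⟩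
  rw [← hW] at h1
  have hlt : O.valuation (∑ r ∈ Finset.range n, ((t + (r + 1 + 1)).choose (2 * (r + 1 + 1)) : ℂ) *
      S (r + 1)) ≤ O.valuation W := by
    refine Valuation.map_sum_le _ fun r _ => ?_
    rw [map_mul, hW]
    have k1 := v_coef2 (2 * (r + 1 + 1)) (t * (t + 1)) _ _
      (v_fac2 h2 (2 * (r + 1 + 1)) (2 * r + 3) (by omega)) (dvd_even t (r + 1 + 1) (by omega))
    calc O.valuation ((t + (r + 1 + 1)).choose (2 * (r + 1 + 1)) : ℂ) * O.valuation (S (r + 1))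
        ≤ O.valuation ((t + (r + 1 + 1)).choose (2 * (r + 1 + 1)) : ℂ) *
          (O.valuation 2 ^ 4) ^ (r + 1) := mul_le_mul_right (hSv _) _
      _ = (O.valuation ((t + (r + 1 + 1)).choose (2 * (r + 1 + 1)) : ℂ) *
          O.valuation 2 ^ (2 * r + 3)) * O.valuation 2 ^ (2 * r + 1) := by
          rw [mul_assoc, ← pow_add, ← pow_mul]
          congr 2
          ring
      _ ≤ O.valuation ((t * (t + 1) : ℕ) : ℂ) * O.valuation 2 ^ (2 * r + 1) :=
          mul_le_mul_left k1 _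
      _ ≤ O.valuation ((t * (t + 1) : ℕ) : ℂ) * 1 :=
          mul_le_mul_right (pow_le_one' h2.le _) _
      _ = _ := by rw [mul_one]
  have hW0 : W ≠ 0 := by
    rw [hW]
    have : t * (t + 1) ≠ 0 := Nat.mul_ne_zero (by omega) (by omega)
    exact_mod_cast this
  have hv : O.valuation W ≠ 0 := (map_ne_zero _).mpr hW0
  have e5 : W = -(2 * (∑ r ∈ Finset.range n,
      ((t + (r + 1 + 1)).choose (2 * (r + 1 + 1)) : ℂ) * S (r + 1))) := by
    linear_combination 2 * h1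
  have h5 : O.valuation W ≤ O.valuation 2 * O.valuation W := by
    conv_lhs => rw [e5]
    rw [Valuation.map_neg, map_mul]
    exact mul_le_mul_right hlt _
  have h6 : O.valuation 2 * O.valuation W < 1 * O.valuation W :=
    mul_lt_mul_of_pos_right h2 (zero_lt_iff.2 hv)
  rw [one_mul] at h6
  exact absurd h5 (not_le.2 h6)

/-- `U_j` separates points of the disc, up to sign if `j` is even -/
theorem Uc_inj2 (h2 : O.valuation 2 < 1) {M : ℂ} (hM : O.valuation M = 1) (j : ℕ) (hj : 1 ≤ j)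
    {a b : ℂ} (ha : O.valuation a ≤ O.valuation 2 ^ 2) (hb : O.valuation b ≤ O.valuation 2 ^ 2)
    (h : Uc M a j = Uc M b j) : a = b ∨ a = -b := by
  obtain ⟨D, rfl⟩ : ∃ D, M = -D := ⟨-M, by ring⟩
  rw [Valuation.map_neg] at hM
  have hD0 : D ≠ 0 := by
    intro h0
    rw [h0, map_zero] at hM
    exact zero_ne_one hM
  have hsq : ∀ x : ℂ, O.valuation x ≤ O.valuation 2 ^ 2 →
      O.valuation (x ^ 2 / D) ≤ O.valuation 2 ^ 4 := by
    intro x hx
    rw [map_div₀, map_pow, hM, div_one]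
    calc O.valuation x ^ 2 ≤ (O.valuation 2 ^ 2) ^ 2 := pow_le_pow_left' hx 2
      _ = O.valuation 2 ^ 4 := by rw [← pow_mul]
  rcases Nat.even_or_odd' j with ⟨t, rfl | rfl⟩
  · rw [(U_form (t + 2) D a hD0 t (by omega)).1, (U_form (t + 2) D b hD0 t (by omega)).1] at h
    have h1 := mul_left_cancel₀ (pow_ne_zero _ hD0) h
    have h3 := even_inj2 h2 t t (by omega) (hsq a ha) (hsq b hb) h1
    have h4 : a ^ 2 = b ^ 2 := by
      field_simp at h3
      exact h3
    exact sq_eq_sq_iff_eq_or_eq_neg.1 h4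
  · left
    rw [(U_form (t + 1) D a hD0 t (by omega)).2, (U_form (t + 1) D b hD0 t (by omega)).2] at h
    have h1 : a * qo (t + 1) t (a ^ 2 / D) = b * qo (t + 1) t (b ^ 2 / D) := by
      have h3 : D ^ t * (a * qo (t + 1) t (a ^ 2 / D)) = D ^ t * (b * qo (t + 1) t (b ^ 2 / D)) := by
        linear_combination h
      exact mul_left_cancel₀ (pow_ne_zero _ hD0) h3
    exact odd_inj2 h2 hM t t ha hb h1

private theorem dvd5 (j r : ℕ) :
    12 * (j + 2).choose 3 ∣ (2 * (r + 3) + 1).factorial * (j + 1 + (r + 1 + 1 + 1)).choose (2 * (r + 1 + 1 + 1) + 1) := by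
  have e0 : 2 * (r + 1 + 1 + 1) + 1 = 2 * (r + 3) + 1 := by ring
  rw [e0, ← Nat.descFactorial_eq_factorial_mul_choose, Nat.descFactorial_eq_prod_range]
  have hs : ({r + 4, r + 3, r + 2, r + 1, r} : Finset ℕ) ⊆ Finset.range (2 * (r + 3) + 1) := by
    intro i hi
    simp only [Finset.mem_insert, Finset.mem_singleton] at hi
    rw [Finset.mem_range]
    omega
  have h := Finset.prod_dvd_prod_of_subset _ _ (fun i => j + 1 + (r + 1 + 1 + 1) - i) hs
  rw [Finset.prod_insert (by simp), Finset.prod_insert (by simp), Finset.prod_insert (by simp),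
    Finset.prod_insert (by simp), Finset.prod_singleton] at h
  have e1 : j + 1 + (r + 1 + 1 + 1) - (r + 4) = j := by omega
  have e2 : j + 1 + (r + 1 + 1 + 1) - (r + 3) = j + 1 := by omega
  have e3 : j + 1 + (r + 1 + 1 + 1) - (r + 2) = j + 2 := by omega
  have e4 : j + 1 + (r + 1 + 1 + 1) - (r + 1) = j + 3 := by omega
  have e5 : j + 1 + (r + 1 + 1 + 1) - r = j + 4 := by omega
  rw [e1, e2, e3, e4, e5] at h
  refine dvd_trans ?_ h
  obtain ⟨m, hm⟩ : 2 ∣ (j + 3) * (j + 4) := (Nat.even_mul_succ_self (j + 3)).two_dvd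
  refine ⟨m, ?_⟩
  have h6 := six j
  calc j * ((j + 1) * ((j + 2) * ((j + 3) * (j + 4)))) = (j * (j + 1) * (j + 2)) * ((j + 3) * (j + 4)) := by ring
    _ = 12 * (j + 2).choose 3 * m := by rw [h6, hm]; ring

private theorem q_inj2 (h2 : O.valuation 2 < 1) (n j : ℕ) (hj : 1 ≤ j)
    {z w : ℂ} (hz : O.valuation z ≤ O.valuation 2 ^ 2) (hw : O.valuation w ≤ O.valuation 2 ^ 2)
    (hzw : O.valuation (z + w) ≤ O.valuation 2 ^ 3)
    (h : qo (n + 3) j z = qo (n + 3) j w) : z = w := by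
  by_contra hne
  have hab : z - w ≠ 0 := sub_ne_zero.2 hne
  obtain ⟨S, hS⟩ : ∃ S : ℕ → ℂ, S = fun r => ∑ i ∈ Finset.range (r + 1),
    z ^ i * w ^ (r + 1 - 1 - i) := ⟨_, rfl⟩
  have hSm : ∀ r, S r * (z - w) = z ^ (r + 1) - w ^ (r + 1) := by
    intro r
    rw [hS]
    exact (Commute.all z w).geom_sum₂_mul (r + 1)
  have hSv : ∀ r, O.valuation (S r) ≤ (O.valuation 2 ^ 2) ^ r := by
    intro r
    rw [hS]
    exact geo z w r _ hz hw
  have hS1 : S 1 = z + w := by
    rw [hS]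
    simp [Finset.sum_range_succ, add_comm]
  have h1 : ∑ r ∈ Finset.range (n + 2), ((j + 1 + (r + 1)).choose (2 * (r + 1) + 1) : ℂ) * S r = 0 := by
    have h3 : (∑ r ∈ Finset.range (n + 2), ((j + 1 + (r + 1)).choose (2 * (r + 1) + 1) : ℂ) * S r) *
        (z - w) = 0 := by
      rw [← sub_eq_zero] at h
      rw [← h]
      unfold qo
      rw [Finset.sum_range_succ' (fun r => ((j + 1 + r).choose (2 * r + 1) : ℂ) * z ^ r),
        Finset.sum_range_succ' (fun r => ((j + 1 + r).choose (2 * r + 1) : ℂ) * w ^ r), Finset.sum_mul]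
      have e : ∀ r ∈ Finset.range (n + 2), ((j + 1 + (r + 1)).choose (2 * (r + 1) + 1) : ℂ) * S r * (z - w) =
          ((j + 1 + (r + 1)).choose (2 * (r + 1) + 1) : ℂ) * z ^ (r + 1) -
          ((j + 1 + (r + 1)).choose (2 * (r + 1) + 1) : ℂ) * w ^ (r + 1) := by
        intro r _
        rw [mul_assoc, hSm]
        ring
      rw [Finset.sum_congr rfl e, Finset.sum_sub_distrib]
      simp
    exact (mul_eq_zero.1 h3).resolve_right hab
  rw [Finset.sum_range_succ', Finset.sum_range_succ'] at h1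
  obtain ⟨W, hW⟩ : ∃ W : ℕ, W = (j + 2).choose 3 := ⟨_, rfl⟩
  have e0 : ((j + 1 + (0 + 1)).choose (2 * (0 + 1) + 1) : ℂ) * S 0 = (W : ℂ) := by
    rw [hS, hW]
    simp
  rw [e0] at h1
  have v3 : O.valuation (3 : ℂ) = 1 := by
    have := val_odd h2 3 (by norm_num)
    simpa using this
  have hv2 : O.valuation (2 : ℂ) ≠ 0 := (map_ne_zero _).mpr (by norm_num)
  -- the second term
  have ht1 : O.valuation (((j + 1 + (0 + 1 + 1)).choose (2 * (0 + 1 + 1) + 1) : ℂ) * S (0 + 1)) ≤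
      O.valuation (W : ℂ) * O.valuation 2 := by
    have k1 := v_coef2 (2 * 2 + 1) (j * (j + 1) * (j + 2)) _ _ (v_fac2' h2 2) (dvd3 j 0)
    rw [six j, ← hW, Nat.cast_mul, map_mul (O.valuation) ((6 : ℕ) : ℂ)] at k1
    have v6 : O.valuation ((6 : ℕ) : ℂ) = O.valuation 2 := by
      have e6 : ((6 : ℕ) : ℂ) = 2 * 3 := by norm_num
      rw [e6, map_mul, v3, mul_one]
    rw [v6] at k1
    have k2 : O.valuation ((j + 1 + (0 + 1 + 1)).choose (2 * (0 + 1 + 1) + 1) : ℂ) *
        O.valuation 2 ^ 2 ≤ O.valuation (W : ℂ) := by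
      have k3 : O.valuation 2 * (O.valuation ((j + 1 + (0 + 1 + 1)).choose (2 * (0 + 1 + 1) + 1) : ℂ) *
          O.valuation 2 ^ 2) ≤ O.valuation 2 * O.valuation (W : ℂ) := by
        refine le_trans (le_of_eq ?_) k1
        have e : O.valuation (2 : ℂ) ^ (2 * 2 - 1) = O.valuation 2 ^ 2 * O.valuation 2 := by
          rw [← pow_succ]
        rw [e, mul_comm (O.valuation 2), mul_assoc]
      exact le_of_mul_le_mul_left k3 (zero_lt_iff.2 hv2)
    have e1 : S (0 + 1) = z + w := hS1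
    rw [e1, map_mul]
    calc O.valuation ((j + 1 + (0 + 1 + 1)).choose (2 * (0 + 1 + 1) + 1) : ℂ) * O.valuation (z + w)
        ≤ O.valuation ((j + 1 + (0 + 1 + 1)).choose (2 * (0 + 1 + 1) + 1) : ℂ) *
          O.valuation 2 ^ 3 := mul_le_mul_right hzw _
      _ = (O.valuation ((j + 1 + (0 + 1 + 1)).choose (2 * (0 + 1 + 1) + 1) : ℂ) *
          O.valuation 2 ^ 2) * O.valuation 2 := by
          rw [mul_assoc, ← pow_succ]
      _ ≤ O.valuation (W : ℂ) * O.valuation 2 := mul_le_mul_left k2 _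
  have hlt : O.valuation (∑ r ∈ Finset.range n, ((j + 1 + (r + 1 + 1 + 1)).choose (2 * (r + 1 + 1 + 1) + 1) : ℂ) *
      S (r + 1 + 1)) ≤ O.valuation (W : ℂ) * O.valuation 2 := by
    refine Valuation.map_sum_le _ fun r _ => ?_
    have k1 := v_coef2 (2 * (r + 3) + 1) (12 * (j + 2).choose 3) _ _ (v_fac2' h2 (r + 3)) (dvd5 j r)
    rw [← hW, Nat.cast_mul, map_mul (O.valuation) ((12 : ℕ) : ℂ)] at k1
    have v12 : O.valuation ((12 : ℕ) : ℂ) = O.valuation 2 ^ 2 := by
      have e6 : ((12 : ℕ) : ℂ) = 2 ^ 2 * 3 := by norm_num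
      rw [e6, map_mul, map_pow, v3, mul_one]
    rw [v12] at k1
    have k2 : O.valuation ((j + 1 + (r + 1 + 1 + 1)).choose (2 * (r + 1 + 1 + 1) + 1) : ℂ) *
        O.valuation 2 ^ (2 * r + 3) ≤ O.valuation (W : ℂ) := by
      have k3 : O.valuation 2 ^ 2 * (O.valuation ((j + 1 + (r + 1 + 1 + 1)).choose (2 * (r + 1 + 1 + 1) + 1) : ℂ) *
          O.valuation 2 ^ (2 * r + 3)) ≤ O.valuation 2 ^ 2 * O.valuation (W : ℂ) := by
        refine le_trans (le_of_eq ?_) k1
        have e : O.valuation (2 : ℂ) ^ (2 * (r + 3) - 1) = O.valuation 2 ^ (2 * r + 3) * O.valuation 2 ^ 2 := by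
          rw [← pow_add]
          congr 1
        rw [e, mul_comm (O.valuation 2 ^ 2), mul_assoc]
      exact le_of_mul_le_mul_left k3 (zero_lt_iff.2 (pow_ne_zero _ hv2))
    rw [map_mul]
    calc O.valuation ((j + 1 + (r + 1 + 1 + 1)).choose (2 * (r + 1 + 1 + 1) + 1) : ℂ) * O.valuation (S (r + 1 + 1))
        ≤ O.valuation ((j + 1 + (r + 1 + 1 + 1)).choose (2 * (r + 1 + 1 + 1) + 1) : ℂ) *
          (O.valuation 2 ^ 2) ^ (r + 1 + 1) := mul_le_mul_right (hSv _) _
      _ = (O.valuation ((j + 1 + (r + 1 + 1 + 1)).choose (2 * (r + 1 + 1 + 1) + 1) : ℂ) *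
          O.valuation 2 ^ (2 * r + 3)) * O.valuation 2 := by
          rw [mul_assoc, ← pow_succ, ← pow_mul]
          congr 2
      _ ≤ O.valuation (W : ℂ) * O.valuation 2 := mul_le_mul_left k2 _
  have hW0 : (W : ℂ) ≠ 0 := by
    rw [hW]
    exact_mod_cast (Nat.choose_pos (by omega : 3 ≤ j + 2)).ne'
  have hv : O.valuation (W : ℂ) ≠ 0 := (map_ne_zero _).mpr hW0
  have e5 : (W : ℂ) = -(∑ r ∈ Finset.range n,
      ((j + 1 + (r + 1 + 1 + 1)).choose (2 * (r + 1 + 1 + 1) + 1) : ℂ) * S (r + 1 + 1) +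
      ((j + 1 + (0 + 1 + 1)).choose (2 * (0 + 1 + 1) + 1) : ℂ) * S (0 + 1)) := by
    linear_combination h1
  have h5 : O.valuation (W : ℂ) ≤ O.valuation (W : ℂ) * O.valuation 2 := by
    conv_lhs => rw [e5]
    rw [Valuation.map_neg]
    exact Valuation.map_add_le _ hlt ht1
  have h6 : O.valuation (W : ℂ) * O.valuation 2 < O.valuation (W : ℂ) * 1 :=
    mul_lt_mul_of_pos_left h2 (zero_lt_iff.2 hv)
  rw [mul_one] at h6
  exact absurd h5 (not_le.2 h6)

/-- `U_j` separates the points near `2 r` (`M = r ^ 2` a unit) -/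
theorem Uc_inj3 (h2 : O.valuation 2 < 1) {r : ℂ} (hr : O.valuation r = 1) (j : ℕ) (hj : 1 ≤ j)
    {a b : ℂ} (ha : O.valuation (a - 2 * r) ≤ O.valuation 2 ^ 2)
    (hb : O.valuation (b - 2 * r) ≤ O.valuation 2 ^ 2)
    (hab : O.valuation (a - b) ≤ O.valuation 2 ^ 3)
    (h : Uc (r ^ 2) a j = Uc (r ^ 2) b j) : a = b := by
  have hr0 : r ≠ 0 := by
    intro h0
    rw [h0, map_zero] at hr
    exact zero_ne_one hr
  obtain ⟨z, hz⟩ : ∃ z, z = (a - 2 * r) / r := ⟨_, rfl⟩
  obtain ⟨w, hw⟩ : ∃ w, w = (b - 2 * r) / r := ⟨_, rfl⟩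
  have hzv : O.valuation z ≤ O.valuation 2 ^ 2 := by
    rw [hz, map_div₀, hr, div_one]
    exact ha
  have hwv : O.valuation w ≤ O.valuation 2 ^ 2 := by
    rw [hw, map_div₀, hr, div_one]
    exact hb
  have ea : a = r * (2 + z) := by
    rw [hz]
    field_simp
    ring
  have eb : b = r * (2 + w) := by
    rw [hw]
    field_simp
    ring
  have hzw : O.valuation (z + w) ≤ O.valuation 2 ^ 3 := by
    have e : z + w = (2 * (a - 2 * r) - (a - b)) / r := by
      rw [hz, hw]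
      field_simp
      ring
    rw [e, map_div₀, hr, div_one]
    refine Valuation.map_sub_le _ ?_ hab
    rw [map_mul, pow_succ' (O.valuation 2) 2]
    exact mul_le_mul_right ha _
  rw [ea, eb, U_form1 (j + 3) r z j (by omega), U_form1 (j + 3) r w j (by omega)] at h
  have h1 := mul_left_cancel₀ (pow_ne_zero _ hr0) h
  rw [ea, eb, q_inj2 h2 j j hj hzv hwv hzw h1]

end Pool.Agent.Lib.MP_06b9d2_p2
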